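import Pool.Agent.Lib.MP_e2821c_ag.Mult

/-!
# Quadratic algebras, degrees and the unit group of a quadratic extension
-/

namespace Pool.Agent.MP_e2821c_ag

open QuadraticAlgebra

universe u

noncomputable section

section quad

variable {O R R' : Type u} [CommRing O] [CommRing R] [CommRing R']

/-- Base change of quadratic algebras. -/
def qmap (a : R →+* R') {p T : R} {p' T' : R'} (hp : a p = p') (hT : a T = T') :
    QuadraticAlgebra R p T →+* QuadraticAlgebra R' p' T' where
  toFun z := ⟨a z.re, a z.im⟩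
  map_one' := by ext <;> simp
  map_mul' z w := by ext <;> simp [hp, hT]
  map_zero' := by ext <;> simp
  map_add' z w := by ext <;> simp

/-- The generator of `R[E]/(E² - T E + c)` is a unit. -/
def om (f : O →+* R) (c : Oˣ) (T : R) : (QuadraticAlgebra R (-f c) T)ˣ where
  val := omega
  inv := ⟨f ↑c⁻¹ * T, -f ↑c⁻¹⟩
  val_inv := by
    have : f c * f ↑c⁻¹ = 1 := by rw [← map_mul]; simp
    ext
    · simp [this]
    · simp; ring
  inv_val := by
    have : f c * f ↑c⁻¹ = 1 := by rw [← map_mul]; simp
    ext
    · simp [this]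
    · simp; ring

/-- The map from Laurent polynomials sending the variable to the generator. -/
def chi (f : O →+* R) (c : Oˣ) (T : R) : LaurentPolynomial O →+* QuadraticAlgebra R (-f c) T :=
  LaurentPolynomial.eval₂ ((algebraMap R _).comp f) (om f c T)

theorem chi_C (f : O →+* R) (c : Oˣ) (T : R) (a : O) :
    chi f c T (LaurentPolynomial.C a) = algebraMap R _ (f a) := by
  simp [chi]

theorem chi_T (f : O →+* R) (c : Oˣ) (T : R) : chi f c T (LaurentPolynomial.T 1) = omega := by
  simp [chi, om]

theorem laurent_ext {S : Type u} [CommRing S] {φ ψ : LaurentPolynomial O →+* S}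
    (hC : ∀ a, φ (LaurentPolynomial.C a) = ψ (LaurentPolynomial.C a))
    (hT : φ (LaurentPolynomial.T 1) = ψ (LaurentPolynomial.T 1)) : φ = ψ := by
  refine IsLocalization.ringHom_ext (Submonoid.powers (Polynomial.X : Polynomial O)) ?_
  refine Polynomial.ringHom_ext (fun a => ?_) ?_
  · simpa [LaurentPolynomial.algebraMap_eq_toLaurent] using hC a
  · simpa [LaurentPolynomial.algebraMap_eq_toLaurent] using hT

theorem qmap_chi (a : R →+* R') (f : O →+* R) (f' : O →+* R') (hf : ∀ x, a (f x) = f' x) (c : Oˣ)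
    {T : R} {T' : R'} (hp : a (-f c) = -f' c) (hT : a T = T') (x : LaurentPolynomial O) :
    qmap a hp hT (chi f c T x) = chi f' c T' x := by
  have : (qmap a hp hT).comp (chi f c T) = chi f' c T' := by
    refine laurent_ext (fun x => ?_) ?_
    · rw [RingHom.comp_apply, chi_C, chi_C]
      ext <;> simp [qmap, hf]
    · rw [RingHom.comp_apply, chi_T, chi_T]
      ext <;> simp [qmap]
  exact DFunLike.congr_fun this x

theorem exists_root [IsDomain R] [IsIntegrallyClosed R] {x y τ ν : R} (hy : y ≠ 0)
    (h : x ^ 2 - τ * x * y + ν * y ^ 2 = 0) : ∃ r : R, r ^ 2 - τ * r + ν = 0 := by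
  let K := FractionRing R
  have hy' : algebraMap R K y ≠ 0 := fun h0 => hy (IsFractionRing.injective R K (by simpa using h0))
  have h1 : (algebraMap R K x / algebraMap R K y) ^ 2 -
      algebraMap R K τ * (algebraMap R K x / algebraMap R K y) + algebraMap R K ν = 0 := by
    have := congrArg (algebraMap R K) h
    simp only [map_add, map_sub, map_mul, map_pow, map_zero] at this
    have hi := mul_inv_cancel₀ hy'
    rw [div_eq_mul_inv]
    linear_combination (algebraMap R K y)⁻¹ ^ 2 * this +
      (algebraMap R K τ * algebraMap R K x * (algebraMap R K y)⁻¹ -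
        algebraMap R K ν * (algebraMap R K y * (algebraMap R K y)⁻¹ + 1)) * hi
  have h2 : IsIntegral R (algebraMap R K x / algebraMap R K y) := by
    refine ⟨Polynomial.X ^ 2 - Polynomial.C τ * Polynomial.X + Polynomial.C ν, by monicity!, ?_⟩
    simpa using h1
  obtain ⟨r, hr⟩ := IsIntegrallyClosed.isIntegral_iff.1 h2
  refine ⟨r, IsFractionRing.injective R K ?_⟩
  simp only [map_add, map_sub, map_mul, map_pow, map_zero, hr]
  exact h1

theorem quad_isDomain [IsDomain R] [IsIntegrallyClosed R] {c T : R}
    (h : ∀ r : R, r ^ 2 - T * r + c ≠ 0) : IsDomain (QuadraticAlgebra R (-c) T) := by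
  have key : ∀ z : QuadraticAlgebra R (-c) T, norm z = 0 → z = 0 := by
    intro z hz
    rw [norm_def] at hz
    by_cases him : z.im = 0
    · rw [him] at hz
      have : z.re = 0 := by simpa using hz
      ext <;> simp [this, him]
    · obtain ⟨r, hr⟩ := exists_root (x := -z.re) (τ := T) (ν := c) him (by linear_combination hz)
      exact absurd hr (h r)
  have : NoZeroDivisors (QuadraticAlgebra R (-c) T) := ⟨fun {z w} hzw => by
    have h1 : norm z * norm w = 0 := by rw [← map_mul, hzw, QuadraticAlgebra.norm_zero]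
    exact (mul_eq_zero.1 h1).imp (key z) (key w)⟩
  exact NoZeroDivisors.to_isDomain _

end quad

section degree

open Polynomial

variable {S : Type u} [CommRing S] [IsDomain S]

theorem natDegree_descent {X Y A B : S[X]} {p q r : S} (h1 : X + Y = A * B)
    (h2 : X * Y = C p * A ^ 2 + C q * B ^ 2 + C r) (hB : 1 ≤ B.natDegree)
    (hAB : B.natDegree ≤ A.natDegree) : X.natDegree < A.natDegree ∨ Y.natDegree < A.natDegree := by
  have hB0 : B ≠ 0 := by rintro rfl; simp at hB
  have hA0 : A ≠ 0 := by rintro rfl; simp at hAB; omega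
  by_cases hX : X = 0
  · left; rw [hX, natDegree_zero]; omega
  by_cases hY : Y = 0
  · right; rw [hY, natDegree_zero]; omega
  have e1 : A.natDegree + B.natDegree ≤ max X.natDegree Y.natDegree := by
    rw [← natDegree_mul hA0 hB0, ← h1]; exact natDegree_add_le _ _
  have e2 : X.natDegree + Y.natDegree ≤ 2 * A.natDegree := by
    rw [← natDegree_mul hX hY, h2]
    refine (natDegree_add_le _ _).trans (max_le ((natDegree_add_le _ _).trans (max_le ?_ ?_)) ?_)
    · exact (natDegree_C_mul_le _ _).trans natDegree_pow_le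
    · exact (natDegree_C_mul_le _ _).trans (natDegree_pow_le.trans (by omega))
    · simp
  omega

theorem leading_form {X Y B : S[X]} {τ ν κ : S} (h1 : X + Y = C τ * B)
    (h2 : X * Y = C ν * B ^ 2 + C κ) (hν : ν ≠ 0) (hB : 1 ≤ B.natDegree) :
    ∃ x y : S, y ≠ 0 ∧ x ^ 2 - τ * x * y + ν * y ^ 2 = 0 := by
  have hB0 : B ≠ 0 := by rintro rfl; simp at hB
  have hd : (C ν * B ^ 2).natDegree = 2 * B.natDegree := by
    rw [natDegree_C_mul hν, natDegree_pow]
  have hlt : (C κ).natDegree < (C ν * B ^ 2).natDegree := by rw [hd, natDegree_C]; omega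
  have hXY : (X * Y).natDegree = 2 * B.natDegree := by
    rw [h2, natDegree_add_eq_left_of_natDegree_lt hlt, hd]
  have hX : X ≠ 0 := by rintro rfl; simp at hXY; omega
  have hY : Y ≠ 0 := by rintro rfl; simp at hXY; omega
  rw [natDegree_mul hX hY] at hXY
  have hle : (X + Y).natDegree ≤ B.natDegree := h1 ▸ natDegree_C_mul_le _ _
  have hXb : X.natDegree = B.natDegree := by
    rcases lt_trichotomy X.natDegree Y.natDegree with h | h | h
    · rw [natDegree_add_eq_right_of_natDegree_lt h] at hle; omega
    · omega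
    · rw [natDegree_add_eq_left_of_natDegree_lt h] at hle; omega
  have hYb : Y.natDegree = B.natDegree := by omega
  have c1 : X.leadingCoeff + Y.leadingCoeff = τ * B.leadingCoeff := by
    have := congrArg (fun P => coeff P B.natDegree) h1
    simpa only [coeff_add, coeff_C_mul, leadingCoeff, hXb, hYb] using this
  have c2 : X.leadingCoeff * Y.leadingCoeff = ν * B.leadingCoeff ^ 2 := by
    rw [← leadingCoeff_mul, h2, leadingCoeff_add_of_degree_lt' (degree_lt_degree hlt),
      leadingCoeff_mul, leadingCoeff_C, leadingCoeff_pow]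
  exact ⟨X.leadingCoeff, B.leadingCoeff, leadingCoeff_ne_zero.2 hB0,
    by linear_combination X.leadingCoeff * c1 - c2⟩

end degree

section grading

variable (O : Type u) [CommRing O] (j : ℕ)

/-- The grading homomorphism `t ↦ t τ`. -/
def gam : Base O j →ₐ[O] Polynomial (Base O j) :=
  MvPolynomial.aeval fun k => Polynomial.C (MvPolynomial.X k) * Polynomial.X

theorem gam_C (a : O) : gam O j (MvPolynomial.C a) = Polynomial.C (MvPolynomial.C a) := by
  simp [gam]

theorem eval_one_gam (f : Base O j) : (gam O j f).eval 1 = f := by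
  induction f using MvPolynomial.induction_on with
  | C a => simp
  | add p q hp hq => simp [hp, hq]
  | mul_X p k hp => rw [map_mul, Polynomial.eval_mul, hp]; simp [gam]

theorem eval_zero_gam (f : Base O j) :
    (gam O j f).eval 0 = MvPolynomial.C (MvPolynomial.constantCoeff f) := by
  induction f using MvPolynomial.induction_on with
  | C a => simp
  | add p q hp hq => simp [hp, hq]
  | mul_X p k hp => rw [map_mul, Polynomial.eval_mul, hp]; simp [gam]

theorem const_of_natDegree {f : Base O j} (h : (gam O j f).natDegree = 0) :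
    ∃ τ, f = MvPolynomial.C τ := by
  refine ⟨MvPolynomial.constantCoeff f, ?_⟩
  rw [← eval_zero_gam]
  conv_lhs => rw [← eval_one_gam O j f]
  rw [Polynomial.eq_C_of_natDegree_eq_zero h, Polynomial.eval_C, Polynomial.eval_C]

theorem const_of_isAlgebraic [IsDomain O] {f : Base O j} (h : IsAlgebraic O f) :
    ∃ τ, f = MvPolynomial.C τ := by
  refine const_of_natDegree O j ?_
  by_contra h0
  have h1 : gam O j f ≠ 0 := by rintro h; simp [h] at h0
  refine Polynomial.transcendental _ h0
    (mem_nonZeroDivisors_of_ne_zero (Polynomial.leadingCoeff_ne_zero.2 h1)) ?_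
  exact (h.algHom (gam O j)).extendScalars (MvPolynomial.C_injective _ _)

theorem base_isIntegrallyClosed [IsDomain O] [IsIntegrallyClosed O] :
    IsIntegrallyClosed (Base O j) := by
  induction j with
  | zero => exact IsIntegrallyClosed.of_equiv (MvPolynomial.isEmptyRingEquiv O (Fin 0)).symm
  | succ j ih =>
    exact IsIntegrallyClosed.of_equiv (MvPolynomial.finSuccEquiv O j).symm.toRingEquiv

theorem root_const [IsDomain O] {T r : Base O j} {c : Oˣ}
    (h : r ^ 2 - T * r + MvPolynomial.C (c : O) = 0) :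
    ∃ r₀ r₁ : Oˣ, r = MvPolynomial.C (r₀ : O) ∧ T = MvPolynomial.C ((r₀ : O) + r₁) ∧
      r₀ * r₁ = c := by
  have h1 : r * (T - r) = MvPolynomial.C (c : O) := by linear_combination -h
  have hu : IsUnit (r * (T - r)) := h1 ▸ c.isUnit.map MvPolynomial.C
  obtain ⟨a, ha, ea⟩ := MvPolynomial.isUnit_iff_eq_C_of_isReduced.1 (isUnit_of_mul_isUnit_left hu)
  obtain ⟨b, hb, eb⟩ := MvPolynomial.isUnit_iff_eq_C_of_isReduced.1 (isUnit_of_mul_isUnit_right hu)
  obtain ⟨a, rfl⟩ := ha
  obtain ⟨b, rfl⟩ := hb
  refine ⟨a, b, ea, by rw [map_add, ← ea, ← eb]; ring, Units.ext ?_⟩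
  apply MvPolynomial.C_injective (Fin j) O
  rw [Units.val_mul, map_mul, ← ea, ← eb, h1]

end grading

theorem exists_conj (K L : Type u) [Field K] [Field L] [Algebra K L] [FiniteDimensional K L]
    (h : Module.finrank K L ≤ 2) : ∃ σ : L →ₐ[K] L, ∀ u,
      u + σ u ∈ (algebraMap K L).range ∧ u * σ u ∈ (algebraMap K L).range := by
  by_cases hs : Function.Surjective (algebraMap K L)
  · exact ⟨AlgHom.id K L, fun u => ⟨hs _, hs _⟩⟩
  obtain ⟨θ, hθ⟩ := not_forall.1 hs
  have hli : LinearIndependent K ![(1 : L), θ] := by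
    rw [LinearIndependent.pair_iff' one_ne_zero]
    intro a ha
    exact hθ ⟨a, by rw [← ha, Algebra.algebraMap_eq_smul_one]⟩
  have hsp : ∀ u : L, ∃ x y : K, u = x • 1 + y • θ := by
    intro u
    have h2 : Module.finrank K L = Fintype.card (Fin 2) := by
      refine le_antisymm (by simpa using h) hli.fintype_card_le_finrank
    have := hli.span_eq_top_of_card_eq_finrank' h2.symm
    have hu : u ∈ Submodule.span K (Set.range ![(1 : L), θ]) := by rw [this]; trivial
    rw [Matrix.range_cons_cons_empty, Submodule.mem_span_pair] at hu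
    obtain ⟨x, y, rfl⟩ := hu
    exact ⟨x, y, rfl⟩
  obtain ⟨a, b, hab⟩ := hsp (θ * θ)
  let f : QuadraticAlgebra K a b →ₐ[K] L := QuadraticAlgebra.lift ⟨θ, hab⟩
  let g : QuadraticAlgebra K a b →ₐ[K] L := QuadraticAlgebra.lift ⟨b • 1 - θ, by
    simp only [Algebra.smul_def, mul_one] at hab ⊢
    linear_combination hab⟩
  have hf : Function.Bijective f := by
    constructor
    · rw [injective_iff_map_eq_zero]
      intro z hz
      have := (LinearIndependent.pair_iff.1 hli) z.re z.im hz
      ext <;> simp [this.1, this.2]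
    · intro u
      obtain ⟨x, y, rfl⟩ := hsp u
      exact ⟨⟨x, y⟩, rfl⟩
  let e := AlgEquiv.ofBijective f hf
  refine ⟨g.comp e.symm.toAlgHom, fun u => ?_⟩
  obtain ⟨z, rfl⟩ := e.surjective u
  have h1 : (g.comp e.symm.toAlgHom) (e z) = z.re • 1 + z.im • (b • 1 - θ) := by
    change g (e.symm (e z)) = _
    rw [e.symm_apply_apply]; rfl
  have h2 : e z = z.re • 1 + z.im • θ := rfl
  rw [h1, h2]
  simp only [Algebra.smul_def, mul_one] at hab ⊢
  refine ⟨⟨2 * z.re + z.im * b, ?_⟩, ⟨z.re ^ 2 + z.re * z.im * b - a * z.im ^ 2, ?_⟩⟩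
  · simp only [map_add, map_mul, map_ofNat]; ring
  · simp only [map_add, map_mul, map_sub, map_pow]
    linear_combination (algebraMap K L z.im) ^ 2 * hab

end

end Pool.Agent.MP_e2821c_ag
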