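import Pool.Agent.Lib.MP_e2821c_ag.Quad

/-!
# Structure of the elementary correspondences of degree at most two
-/

namespace Pool.Agent.MP_e2821c_ag

open MvPolynomial

universe u

noncomputable section

theorem exists_conj_ring {R A : Type u} [CommRing R] [IsDomain R] [IsIntegrallyClosed R]
    [CommRing A] {g : R →+* A} (P : ElemOf R A g) (h : degree R A g P ≤ 2) :
    ∃ (L : Type u) (_ : Field L) (π : A →+* L) (σ : L →+* L), RingHom.ker π = P.1 ∧
      (∀ r, σ (π (g r)) = π (g r)) ∧
      ∀ x, (∃ t, π (g t) = π x + σ (π x)) ∧ ∃ ν, π (g ν) = π x * σ (π x) := by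
  have : P.1.IsPrime := P.2.1
  let D := A ⧸ P.1
  let : Algebra R D := ((Ideal.Quotient.mk P.1).comp g).toAlgebra
  have : Module.Finite R D := P.2.2.1
  have : FaithfulSMul R D := (faithfulSMul_iff_algebraMap_injective _ _).2 (by
    rw [RingHom.injective_iff_ker_eq_bot]
    change RingHom.ker ((Ideal.Quotient.mk P.1).comp g) = ⊥
    rw [← RingHom.comap_ker, Ideal.mk_ker]
    exact P.2.2.2)
  let L := FractionRing D
  let K := FractionRing R
  let := FractionRing.liftAlgebra R L
  have hfin : FiniteDimensional K L := inferInstance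
  have hr : Module.finrank K L ≤ 2 := by
    rw [IsFractionRing.finrank_eq R K D L]; exact h
  obtain ⟨σ, hσ⟩ := exists_conj K L hr
  have hπ : ∀ r, algebraMap D L (Ideal.Quotient.mk P.1 (g r)) = algebraMap K L (algebraMap R K r) :=
    fun r => by rw [← IsScalarTower.algebraMap_apply, IsScalarTower.algebraMap_apply R D L]; rfl
  have key : ∀ y : L, IsIntegral R y → y ∈ (algebraMap K L).range →
      ∃ t, algebraMap D L (Ideal.Quotient.mk P.1 (g t)) = y := by
    rintro _ hy ⟨z, rfl⟩
    obtain ⟨t, rfl⟩ := IsIntegrallyClosed.isIntegral_iff.1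
      ((isIntegral_algebraMap_iff (algebraMap K L).injective).1 hy)
    exact ⟨t, hπ t⟩
  refine ⟨L, inferInstance, (algebraMap D L).comp (Ideal.Quotient.mk P.1), σ, ?_, fun r => ?_,
    fun x => ?_⟩
  · rw [← RingHom.comap_ker, (RingHom.injective_iff_ker_eq_bot _).1 (IsFractionRing.injective D L),
      ← RingHom.ker_eq_comap_bot, Ideal.mk_ker]
  · rw [RingHom.comp_apply, hπ]; exact σ.commutes _
  · have h1 : IsIntegral R (algebraMap D L (Ideal.Quotient.mk P.1 x)) :=
      (Algebra.IsIntegral.isIntegral (R := R) _).algebraMap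
    have h2 := h1.map (σ.restrictScalars R)
    exact ⟨key _ (h1.add h2) (hσ _).1, key _ (h1.mul h2) (hσ _).2⟩

variable {O : Type u} [CommRing O] [IsDomain O] [IsIntegrallyClosed O] {n j : ℕ}

omit [IsDomain O] [IsIntegrallyClosed O] in
theorem proj_C (a : O) : proj O n j (C a) = C (algebraMap O (Torus O n) a) := by
  rw [proj, map_C]

omit [IsDomain O] [IsIntegrallyClosed O] in
theorem const_of_quadratic (P : Elem O n j) (h : ∀ v : Fin n → ℤ, ∃ τ ν : O,
    (C (AddMonoidAlgebra.single v 1) : Amb O n j) ^ 2 -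
      proj O n j (C τ) * C (AddMonoidAlgebra.single v 1) + proj O n j (C ν) ∈ P.1) :
    ∃ P₀, P = ext O n j P₀ := by
  have : P.1.IsPrime := P.2.1
  let J : Ideal (Torus O n) := P.1.comap (C : Torus O n →+* Amb O n j)
  have hfin : FiniteOver O (Torus O n) (algebraMap O _) J := by
    change (algebraMap O (Torus O n ⧸ J)).Finite
    rw [RingHom.finite_algebraMap]
    have : Algebra.IsIntegral O (Torus O n ⧸ J) := ⟨fun x => by
      obtain ⟨x, rfl⟩ := Ideal.Quotient.mk_surjective x
      induction x using AddMonoidAlgebra.induction_on with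
      | of v =>
        obtain ⟨τ, ν, hv⟩ := h v
        refine ⟨Polynomial.X ^ 2 - Polynomial.C τ * Polynomial.X + Polynomial.C ν,
          by nontriviality O; monicity!, ?_⟩
        rw [proj_C, proj_C, ← map_pow, ← map_mul, ← map_sub, ← map_add] at hv
        have := Ideal.Quotient.eq_zero_iff_mem.2 (show _ ∈ J from hv)
        rw [map_add, map_sub, map_pow, map_mul] at this
        simp only [Polynomial.eval₂_add, Polynomial.eval₂_sub, Polynomial.eval₂_mul,
          Polynomial.eval₂_pow, Polynomial.eval₂_C, Polynomial.eval₂_X]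
        exact this
      | add x y hx hy => rw [map_add]; exact hx.add hy
      | smul r x hx => exact hx.smul r⟩
    exact Algebra.IsIntegral.finite
  have hbot : J.comap (algebraMap O _) = ⊥ := by
    rw [eq_bot_iff]
    intro a ha
    have h1 : (C a : Base O j) ∈ P.1.comap (proj O n j) := by
      rw [Ideal.mem_comap, proj_C]; exact ha
    rw [P.2.2.2, Ideal.mem_bot] at h1
    exact C_injective _ _ (h1.trans (map_zero _).symm)
  let P₀ : Pt O n := ⟨J, Ideal.comap_isPrime _ _, hfin, hbot⟩
  exact ⟨P₀, Subtype.ext (eq_of_le (ext O n j P₀) Ideal.map_comap_le P.2.2.2)⟩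

/-- `J` is the ideal of a closed embedding of `G_m` over the base. -/
def IsLine (J : Ideal (Torus O n)) : Prop :=
  ∃ ψ : Torus O n →ₐ[O] LaurentPolynomial O, Function.Surjective ψ ∧ RingHom.ker ψ = J

theorem structure_thm (P : Elem O n j) (h : degree (Base O j) (Amb O n j) (proj O n j) P ≤ 2) :
    (∃ P₀, P = ext O n j P₀) ∨ ∃ J, IsLine J ∧
      ∀ (ψ : Torus O n →ₐ[O] LaurentPolynomial O) (hψ : Function.Surjective ψ),
        RingHom.ker ψ = J → ∃ c T, ∃ hT : ¬ ∃ τ, T = C τ, P = elemOf j ψ c hψ T hT := by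
  have := base_isIntegrallyClosed O j
  obtain ⟨L, _, π, σ, hker, hσ, hTN⟩ := exists_conj_ring P h
  let ρ : Base O j →+* L := π.comp (proj O n j)
  have hρ : Function.Injective ρ := by
    rw [RingHom.injective_iff_ker_eq_bot, ← RingHom.comap_ker, hker]; exact P.2.2.2
  let κ : Torus O n →+* L := π.comp C
  have hκ : ∀ a, κ (algebraMap O _ a) = ρ (C a) := fun a => by
    change _ = π (proj O n j (C a)); rw [proj_C]; rfl
  let Γ : Subgroup Lˣ := κ.range.toSubmonoid.units
  have hΓ : ∀ u ∈ Γ, ∃ x, κ x = (u : L) := fun u hu => hu.1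
  have hx : ∀ v : Fin n → ℤ, ∃ u ∈ Γ, (u : L) = κ (AddMonoidAlgebra.single v 1) := by
    intro v
    have h1 : ∀ v w : Fin n → ℤ, v + w = 0 →
        κ (AddMonoidAlgebra.single v 1) * κ (AddMonoidAlgebra.single w 1) = 1 := by
      intro v w hvw
      rw [← map_mul, AddMonoidAlgebra.single_mul_single, hvw, mul_one,
        ← AddMonoidAlgebra.one_def, map_one]
    exact ⟨⟨_, _, h1 v (-v) (add_neg_cancel v), h1 (-v) v (neg_add_cancel v)⟩,
      ⟨⟨_, rfl⟩, ⟨_, rfl⟩⟩, rfl⟩
  rcases unit_group ρ hρ σ hσ Γ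
    (fun u hu => by obtain ⟨x, hx⟩ := hΓ u hu; rw [← hx]; exact (hTN _).1)
    (fun u hu => by obtain ⟨x, hx⟩ := hΓ u hu; rw [← hx]; exact (hTN _).2)
    (fun a => ⟨⟨_, hκ a⟩, ⟨_, hκ ↑a⁻¹⟩⟩) with hc | ⟨ε, hε, T, hT, hTε, hall⟩
  · left
    refine const_of_quadratic P fun v => ?_
    obtain ⟨u, hu, huv⟩ := hx v
    obtain ⟨τ, ν, h0⟩ := hc u hu
    refine ⟨τ, ν, ?_⟩
    rw [← hker, RingHom.mem_ker, map_add, map_sub, map_pow, map_mul]
    rw [huv] at h0
    exact h0
  right
  refine ⟨RingHom.ker κ, ?_, fun ψ hψ hJ => ?_⟩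
  · let lam := LaurentPolynomial.eval₂ (ρ.comp C) ε
    have hlam : Function.Injective lam := laurent_injective ρ hρ σ hσ ε hTε hT
    have hle : ∀ x, κ x ∈ lam.range := by
      intro x
      induction x using AddMonoidAlgebra.induction_on with
      | of v =>
        obtain ⟨u, hu, huv⟩ := hx v
        obtain ⟨a, k, rfl⟩ := hall u hu
        exact ⟨LaurentPolynomial.C (a : O) * LaurentPolynomial.T k, by
          rw [LaurentPolynomial.eval₂_C_mul_T]; exact huv⟩
      | add x y hx hy => rw [map_add]; exact add_mem hx hy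
      | smul r x hx =>
        rw [Algebra.smul_def, map_mul, hκ]
        exact mul_mem ⟨LaurentPolynomial.C r, LaurentPolynomial.eval₂_C _ _ _⟩ hx
    let e : LaurentPolynomial O ≃+* lam.range := RingEquiv.ofBijective lam.rangeRestrict
      ⟨fun x y hxy => hlam (congrArg Subtype.val hxy), lam.rangeRestrict_surjective⟩
    let ψ₁ : Torus O n →+* LaurentPolynomial O := e.symm.toRingHom.comp (κ.codRestrict _ hle)
    have hψ₁ : ∀ x, lam (ψ₁ x) = κ x := fun x =>
      congrArg Subtype.val (e.apply_symm_apply (κ.codRestrict _ hle x))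
    refine ⟨{ ψ₁ with commutes' := fun a => hlam ?_ }, fun f => ?_, ?_⟩
    · refine (hψ₁ _).trans ?_
      rw [hκ, ← LaurentPolynomial.C_eq_algebraMap]
      exact (LaurentPolynomial.eval₂_C (ρ.comp C) ε a).symm
    · have : lam f ∈ κ.range := by
        induction f using LaurentPolynomial.induction_on' with
        | add p q hp hq => rw [map_add]; exact add_mem hp hq
        | C_mul_T k a =>
          rw [LaurentPolynomial.eval₂_C_mul_T]
          exact mul_mem ⟨_, hκ a⟩ (hΓ _ (zpow_mem hε k))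
      obtain ⟨x, hx⟩ := this
      exact ⟨x, hlam ((hψ₁ x).trans hx)⟩
    · ext x
      rw [RingHom.mem_ker, RingHom.mem_ker, ← hψ₁, map_eq_zero_iff _ hlam]
      rfl
  · let μ : LaurentPolynomial O →+* L :=
      (ψ : Torus O n →+* LaurentPolynomial O).liftOfSurjective hψ ⟨κ, hJ.le⟩
    have hμ : ∀ x, μ (ψ x) = κ x := fun x =>
      (ψ : Torus O n →+* LaurentPolynomial O).liftOfSurjective_comp_apply hψ ⟨κ, hJ.le⟩ x
    have hμi : ∀ f, μ f = 0 → f = 0 := by
      intro f hf
      obtain ⟨x, rfl⟩ := hψ f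
      rw [hμ] at hf
      exact (hJ.ge hf : x ∈ RingHom.ker ψ)
    have hμC : ∀ a, μ (LaurentPolynomial.C a) = ρ (C a) := fun a => by
      rw [LaurentPolynomial.C_eq_algebraMap, ← ψ.commutes, hμ, hκ]
    obtain ⟨w, hw⟩ := hψ (LaurentPolynomial.T 1)
    obtain ⟨w', hw'⟩ := hψ (LaurentPolynomial.T (-1))
    have hww : κ w * κ w' = 1 := by
      rw [← hμ, ← hμ, hw, hw', ← map_mul, ← LaurentPolynomial.T_add]; simp
    obtain ⟨c, hc⟩ := exists_norm_unit ρ hρ σ ⟨κ w, κ w', hww, (mul_comm _ _).trans hww⟩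
      (hTN _).2 (hTN _).2
    obtain ⟨T', hT'⟩ := (hTN (C w)).1
    have hq : κ w * κ w = -ρ (C (c : O)) + ρ T' * κ w := by
      have e1 : ρ T' = κ w + σ (κ w) := hT'
      have e2 : ρ (C (c : O)) = κ w * σ (κ w) := hc
      rw [e1, e2]; ring
    have hnc : ¬ ∃ τ, T' = C τ := by
      rintro ⟨τ, rfl⟩
      have h1 : μ (Polynomial.toLaurent (Polynomial.X ^ 2 - Polynomial.C τ * Polynomial.X +
          Polynomial.C (c : O))) = 0 := by
        simp only [map_add, map_sub, map_mul, map_pow, Polynomial.toLaurent_X,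
          Polynomial.toLaurent_C, hμC]
        rw [← hw, hμ]
        linear_combination hq
      have h2 := Polynomial.toLaurent_eq_zero.1 (hμi _ h1)
      have h3 : (Polynomial.X ^ 2 - Polynomial.C τ * Polynomial.X +
          Polynomial.C (c : O)).Monic := by monicity!
      exact h3.ne_zero h2
    refine ⟨c, T', hnc, Subtype.ext (eq_of_le (elemOf j ψ c hψ T' hnc) ?_ P.2.2.2)⟩
    let : Algebra (Base O j) L := ρ.toAlgebra
    let g : QuadraticAlgebra (Base O j) (-C (c : O)) T' →ₐ[Base O j] L :=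
      QuadraticAlgebra.lift ⟨κ w, by
        rw [Algebra.smul_def, Algebra.smul_def, mul_one, map_neg]; exact hq⟩
    have h1 : g.toRingHom.comp (chi (C : O →+* Base O j) c T') = μ := by
      refine laurent_ext (fun a => ?_) ?_
      · rw [RingHom.comp_apply, chi_C, hμC]; exact g.commutes _
      · rw [RingHom.comp_apply, chi_T, ← hw, hμ]; simp [g]
    have h2 : g.toRingHom.comp (phi j ψ c T') = π := by
      refine MvPolynomial.ringHom_ext (fun a => ?_) (fun k => ?_)
      · rw [RingHom.comp_apply, phi_C]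
        exact (DFunLike.congr_fun h1 (ψ a)).trans (hμ a)
      · rw [RingHom.comp_apply, phi_X]
        refine (g.commutes _).trans ?_
        change π (proj O n j (X k)) = _
        rw [proj, map_X]
    intro y hy
    have hy' : phi j ψ c T' y = 0 := hy
    rw [← hker, RingHom.mem_ker, ← h2, RingHom.comp_apply, hy', map_zero]

end

end Pool.Agent.MP_e2821c_ag
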