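import Pool.Agent.Lib.MP_e2821c_ag.Simplex

/-!
# Cycles of subschemes, and constant correspondences
-/

namespace Pool.Agent.MP_e2821c_ag

open MvPolynomial

universe u

noncomputable section

section General

variable {R A : Type u} [CommRing R] [CommRing A] {g : R →+* A}

theorem eq_of_le (P : ElemOf R A g) {I : Ideal A} (hle : P.1 ≤ I) (hI : I.comap g = ⊥) :
    I = P.1 := by
  have : P.1.IsPrime := P.2.1
  let : Algebra R (A ⧸ P.1) := ((Ideal.Quotient.mk P.1).comp g).toAlgebra
  have : Module.Finite R (A ⧸ P.1) := P.2.2.1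
  have : Nontrivial R := ((Ideal.Quotient.mk P.1).comp g).domain_nontrivial
  have h : I.map (Ideal.Quotient.mk P.1) = ⊥ := by
    refine Ideal.eq_bot_of_comap_eq_bot (R := R) (le_antisymm ?_ bot_le)
    intro r hr
    have hr' : Ideal.Quotient.mk P.1 (g r) ∈ I.map (Ideal.Quotient.mk P.1) := hr
    rw [Ideal.mem_quotient_iff_mem hle] at hr'
    rw [← hI]
    exact hr'
  refine le_antisymm ?_ hle
  rw [Ideal.map_eq_bot_iff_le_ker, Ideal.mk_ker] at h
  exact h

theorem finiteOver_ker {B : Type u} [CommRing B] (φ : A →+* B) (hφ : Function.Surjective φ)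
    (h : (φ.comp g).Finite) : FiniteOver R A g (RingHom.ker φ) := by
  have h1 : (Ideal.Quotient.mk (RingHom.ker φ)).comp g =
      (RingHom.quotientKerEquivOfSurjective hφ).symm.toRingHom.comp (φ.comp g) := by
    refine RingHom.ext fun r => ?_
    simp
  unfold FiniteOver
  rw [h1]
  exact RingHom.Finite.comp (RingHom.Finite.of_surjective _ (RingEquiv.surjective _)) h

/-- The length of the local ring of `V(I)` at `Q`. -/
def len (I Q : Ideal A) [Q.IsPrime] : ℕ∞ :=
  Module.length (Localization.AtPrime Q)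
    (Localization.AtPrime Q ⧸ I.map (algebraMap A (Localization.AtPrime Q)))

theorem len_self (Q : Ideal A) [Q.IsPrime] : len Q Q = 1 := by
  unfold len
  rw [Localization.AtPrime.map_eq_maximalIdeal, Module.length_eq_one_iff,
    isSimpleModule_iff_isCoatom]
  exact Ideal.isMaximal_def.1 inferInstance

theorem len_of_not_le {I Q : Ideal A} [Q.IsPrime] (hI : ¬ I ≤ Q) : len I Q = 0 := by
  obtain ⟨x, hxI, hxQ⟩ := SetLike.not_le_iff_exists.1 hI
  have htop : I.map (algebraMap A (Localization.AtPrime Q)) = ⊤ :=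
    Ideal.eq_top_of_isUnit_mem _ (Ideal.mem_map_of_mem _ hxI)
      (IsLocalization.map_units (Localization.AtPrime Q) (⟨x, hxQ⟩ : Q.primeCompl))
  have : Subsingleton (Localization.AtPrime Q ⧸
      I.map (algebraMap A (Localization.AtPrime Q))) :=
    Ideal.Quotient.subsingleton_iff.2 htop
  simp [len]

theorem length_quot_add {S : Type u} [CommRing S] (I N N' : Ideal S) (x : S)
    (hcol : ∀ y, y * x ∈ I ↔ y ∈ N') (hsup : I ⊔ Ideal.span {x} = N) :
    Module.length S (S ⧸ I) = Module.length S (S ⧸ N') + Module.length S (S ⧸ N) := by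
  have hIN : I ≤ N := hsup ▸ le_sup_left
  let f : (S ⧸ N') →ₗ[S] (S ⧸ I) := Submodule.mapQ N' I (LinearMap.mulRight S x)
    fun y hy => (hcol y).2 hy
  let p : (S ⧸ I) →ₗ[S] (S ⧸ N) := Submodule.mapQ I N LinearMap.id hIN
  refine Module.length_eq_add_of_exact f p ?_ ?_ ?_
  · rw [← LinearMap.ker_eq_bot, eq_bot_iff]
    intro y hy
    obtain ⟨y, rfl⟩ := Submodule.Quotient.mk_surjective _ y
    have : (Submodule.Quotient.mk (y * x) : S ⧸ I) = 0 := hy
    exact (Submodule.Quotient.mk_eq_zero _).2 ((hcol y).1 ((Submodule.Quotient.mk_eq_zero _).1 this))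
  · intro y
    obtain ⟨y, rfl⟩ := Submodule.Quotient.mk_surjective _ y
    exact ⟨Submodule.Quotient.mk y, rfl⟩
  · intro y
    obtain ⟨y, rfl⟩ := Submodule.Quotient.mk_surjective _ y
    constructor
    · intro hy
      have h1 : (Submodule.Quotient.mk y : S ⧸ N) = 0 := hy
      rw [Submodule.Quotient.mk_eq_zero, ← hsup, Submodule.mem_sup] at h1
      obtain ⟨a, ha, b, hb, rfl⟩ := h1
      obtain ⟨r, rfl⟩ := Ideal.mem_span_singleton'.1 hb
      refine ⟨Submodule.Quotient.mk r, ?_⟩
      change (Submodule.Quotient.mk (r * x) : S ⧸ I) = _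
      rw [Submodule.Quotient.eq]
      simpa using ha
    · rintro ⟨r, hr⟩
      obtain ⟨r, rfl⟩ := Submodule.Quotient.mk_surjective _ r
      rw [← hr]
      change (Submodule.Quotient.mk (r * x) : S ⧸ N) = 0
      rw [Submodule.Quotient.mk_eq_zero, ← hsup]
      exact Ideal.mem_sup_right (Ideal.mem_span_singleton'.2 ⟨r, rfl⟩)

theorem len_add (I N N' Q : Ideal A) [Q.IsPrime] (x : A)
    (hcol : ∀ y, y * x ∈ I ↔ y ∈ N') (hsup : I ⊔ Ideal.span {x} = N) :
    len I Q = len N' Q + len N Q := by
  refine length_quot_add _ _ _ (algebraMap A _ x) ?_ ?_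
  · intro y
    obtain ⟨⟨a, s⟩, rfl⟩ := IsLocalization.mk'_surjective Q.primeCompl y
    simp only
    rw [mul_comm, IsLocalization.mul_mk'_eq_mk'_of_mul,
      IsLocalization.mk'_mem_map_algebraMap_iff, IsLocalization.mk'_mem_map_algebraMap_iff]
    refine exists_congr fun t => and_congr_right fun _ => ?_
    rw [← hcol]
    have : t * (x * a) = t * a * x := by ring
    rw [this]
  · rw [← hsup, Ideal.map_sup, Ideal.map_span, Set.image_singleton]

theorem cyc_apply (I : Ideal A) (h : FiniteOver R A g I) (Q : ElemOf R A g) :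
    cyc R A g I h Q = (haveI : Q.1.IsPrime := Q.2.1; ((len I Q.1).toNat : ℤ)) := rfl

open Classical in
theorem len_elem (P Q : ElemOf R A g) :
    (haveI : Q.1.IsPrime := Q.2.1; len P.1 Q.1) = if P = Q then 1 else 0 := by
  have : Q.1.IsPrime := Q.2.1
  split_ifs with h
  · subst h; exact len_self _
  · exact len_of_not_le fun hle => h (Subtype.ext (eq_of_le P hle Q.2.2.2).symm)

theorem cyc_elem (P : ElemOf R A g) {I : Ideal A} (hI : I = P.1) (h : FiniteOver R A g I) :
    cyc R A g I h = Finsupp.single P 1 := by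
  classical
  subst hI
  ext Q
  rw [cyc_apply, len_elem, Finsupp.single_apply]
  split_ifs <;> simp

theorem cyc_two (I : Ideal A) (h : FiniteOver R A g I) (N N' : ElemOf R A g) (x : A)
    (hcol : ∀ y, y * x ∈ I ↔ y ∈ N'.1) (hsup : I ⊔ Ideal.span {x} = N.1) :
    cyc R A g I h = Finsupp.single N' 1 + Finsupp.single N 1 := by
  classical
  ext Q
  have : Q.1.IsPrime := Q.2.1
  rw [cyc_apply, len_add I N.1 N'.1 Q.1 x hcol hsup, len_elem, len_elem, Finsupp.add_apply,
    Finsupp.single_apply, Finsupp.single_apply]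
  split_ifs
  · rfl
  all_goals simp

theorem cyc_congr {I I' : Ideal A} (e : I = I') (h : FiniteOver R A g I)
    (h' : FiniteOver R A g I') : cyc R A g I h = cyc R A g I' h' := by
  subst e; rfl

theorem le_of_mem_support_cyc {I : Ideal A} {h : FiniteOver R A g I} {Q : ElemOf R A g}
    (hQ : Q ∈ (cyc R A g I h).support) : I ≤ Q.1 :=
  le_of_mult_ne_zero R A g (Finsupp.mem_support_iff.1 hQ)

end General

attribute [local instance] MvPolynomial.algebraMvPolynomial in
theorem finite_mvMap {R S : Type u} [CommRing R] [CommRing S] (σ : Type) (f : R →+* S)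
    (hf : f.Finite) : RingHom.Finite (A := MvPolynomial σ R) (B := MvPolynomial σ S)
      (MvPolynomial.map f) := by
  let := f.toAlgebra
  exact RingHom.finite_isStableUnderBaseChange R S (MvPolynomial σ R) (MvPolynomial σ S) hf

variable (O : Type u) [CommRing O] (n j : ℕ)

/-- Closed points of the torus, finite and dominant over the base. -/
abbrev Pt : Type u := ElemOf O (Torus O n) (algebraMap O (Torus O n))

/-- The constant correspondence attached to a point. -/
def ext (P : Pt O n) : Elem O n j :=
  ⟨P.1.map (C : Torus O n →+* Amb O n j), by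
    have hk : P.1.map (C : Torus O n →+* Amb O n j) =
        RingHom.ker (MvPolynomial.map (σ := Fin j) (Ideal.Quotient.mk P.1)) := by
      rw [MvPolynomial.ker_map, Ideal.mk_ker]
    have : P.1.IsPrime := P.2.1
    rw [hk]
    refine ⟨RingHom.ker_isPrime _, finiteOver_ker _
      (MvPolynomial.map_surjective _ Ideal.Quotient.mk_surjective) ?_, ?_⟩
    · have := finite_mvMap (Fin j) _ P.2.2.1
      convert this using 1
      refine RingHom.ext fun p => ?_
      simp [proj, MvPolynomial.map_map]
    · rw [eq_bot_iff]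
      intro r hr
      have h1 : MvPolynomial.map ((Ideal.Quotient.mk P.1).comp (algebraMap O (Torus O n))) r = 0 := by
        rw [← MvPolynomial.map_map]; exact hr
      have h2 : Function.Injective ((Ideal.Quotient.mk P.1).comp (algebraMap O (Torus O n))) := by
        rw [RingHom.injective_iff_ker_eq_bot, ← RingHom.comap_ker, Ideal.mk_ker]
        exact P.2.2.2
      exact MvPolynomial.map_injective _ h2 (by rw [h1, map_zero])⟩

theorem C_mem_ext (P : Pt O n) (a : Torus O n) :
    (C a : Amb O n j) ∈ (ext O n j P).1 ↔ a ∈ P.1 := by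
  constructor
  · intro h
    simpa using (MvPolynomial.mem_map_C_iff.1 h) 0
  · exact fun h => Ideal.mem_map_of_mem _ h

theorem ext_injective : Function.Injective (ext O n j) := by
  intro P Q h
  refine Subtype.ext (Ideal.ext fun a => ?_)
  rw [← C_mem_ext O n j, h, C_mem_ext]

theorem degenerate_ext_iff (P : Pt O n) : Degenerate O n j (ext O n j P) ↔
    ∃ i : Fin n, coordSubOne O n i ∈ P.1 :=
  exists_congr fun _ => C_mem_ext O n j P _

theorem pull_single (i : Fin (j + 2)) (P : Elem O n (j + 1)) :
    pull O n j i (Finsupp.single P 1) =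
      cyc (Base O j) (Amb O n j) (proj O n j) (P.1.map (face (Torus O n) j i).toRingHom)
        (finite_face O n j i P.1 P.2.2.1) := by
  simp [pull, pullOf]

theorem pull_ext (i : Fin (j + 2)) (P : Pt O n) :
    pull O n j i (Finsupp.single (ext O n (j + 1) P) 1) = Finsupp.single (ext O n j P) 1 := by
  rw [pull_single]
  refine cyc_elem _ ?_ _
  change (P.1.map _).map _ = P.1.map _
  rw [Ideal.map_map]
  congr 1
  refine RingHom.ext fun a => ?_
  simp [face]

/-- Constant correspondences. -/
def extL : (Pt O n →₀ ℤ) →ₗ[ℤ] Cor O n j := Finsupp.lmapDomain ℤ ℤ (ext O n j)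

theorem extL_single (P : Pt O n) (m : ℤ) :
    extL O n j (Finsupp.single P m) = Finsupp.single (ext O n j P) m := by
  simp [extL]

theorem pull_extL (i : Fin (j + 2)) (y : Pt O n →₀ ℤ) :
    pull O n j i (extL O n (j + 1) y) = extL O n j y := by
  induction y using Finsupp.induction_linear with
  | zero => simp
  | add a b ha hb => simp [ha, hb]
  | single P m =>
    rw [extL_single, extL_single, ← Finsupp.smul_single_one, map_smul, pull_ext,
      Finsupp.smul_single_one]

theorem bd_apply (c : Cor O n (j + 1)) :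
    bd O n j c = ∑ i : Fin (j + 2), ((-1 : ℤ) ^ (i : ℕ)) • pull O n j i c := by
  simp only [bd, LinearMap.sum_apply, LinearMap.smul_apply]

theorem bd_extL (y : Pt O n →₀ ℤ) : bd O n j (extL O n (j + 1) y) = eps j • extL O n j y := by
  rw [bd_apply, eps, Finset.sum_smul]
  simp only [pull_extL]

theorem bd_degen {c : Cor O n (j + 1)} (hc : c ∈ degen O n (j + 1)) : bd O n j c ∈ degen O n j := by
  rw [degen, Finsupp.supported_eq_span_single] at hc
  induction hc using Submodule.span_induction with
  | mem x hx =>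
    obtain ⟨P, ⟨k, hk⟩, rfl⟩ := hx
    rw [bd_apply]
    refine Submodule.sum_mem _ fun i _ => Submodule.smul_mem _ _ ?_
    rw [pull_single]
    intro Q hQ
    refine ⟨k, le_of_mem_support_cyc hQ ?_⟩
    have := Ideal.mem_map_of_mem (face (Torus O n) j i).toRingHom hk
    simpa [face, Vanishes] using this
  | zero => simp
  | add a b _ _ ha hb => rw [map_add]; exact add_mem ha hb
  | smul m a _ ha => rw [map_smul]; exact Submodule.smul_mem _ _ ha

theorem extL_mem_degen {j j' : ℕ} {y : Pt O n →₀ ℤ} (h : extL O n j y ∈ degen O n j) :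
    extL O n j' y ∈ degen O n j' := by
  classical
  intro Q hQ
  obtain ⟨P, hP, rfl⟩ := Finset.mem_image.1 (Finsupp.mapDomain_support (Finset.mem_coe.1 hQ))
  have : ext O n j P ∈ (extL O n j y).support := by
    rw [Finsupp.mem_support_iff]
    change Finsupp.mapDomain _ _ _ ≠ 0
    rw [Finsupp.mapDomain_apply (ext_injective O n j)]
    exact Finsupp.mem_support_iff.1 hP
  exact (degenerate_ext_iff O n j' P).2 ((degenerate_ext_iff O n j P).1 (h this))

end

end Pool.Agent.MP_e2821c_ag
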