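import Mathlib

/-!
# The Suslin complex of finite correspondences into the split torus

For a commutative ring `O` put `U = Spec O`.  We write down the groups
`Cor (Δ^j × U, G_m^n)`, the alternating sum of the face maps, the subgroup of degenerate
correspondences (the image of the `n` embeddings inserting `1`) and the degree of an elementary
correspondence over `Δ^j × U`.
-/

namespace Pool.Agent.MP_e2821c_ag

open MvPolynomial

universe u

noncomputable section

section General

variable (R A : Type u) [CommRing R] [CommRing A] (g : R →+* A)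

/-- The closed subscheme `V(I)` of `Spec A` is finite over `Spec R`. -/
def FiniteOver (I : Ideal A) : Prop := ((Ideal.Quotient.mk I).comp g).Finite

/-- `V(P)` is a closed integral subscheme of `Spec A` that is finite and dominant (hence
surjective) over `Spec R`. -/
def IsElem (P : Ideal A) : Prop := P.IsPrime ∧ FiniteOver R A g P ∧ P.comap g = ⊥

/-- The closed integral subschemes of `Spec A` that are finite and surjective over `Spec R`. -/
def ElemOf : Type u := {P : Ideal A // IsElem R A g P}

/-- The length of `A / J` as an `A`-module. -/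
def quotLength (J : Ideal A) : ℕ∞ := Module.length A (A ⧸ J)

/-- The length of `A_Q / I A_Q`, the local ring of `V(I)` at the prime `Q`. -/
def locLength (I Q : Ideal A) [Q.IsPrime] : ℕ∞ :=
  quotLength (Localization.AtPrime Q) (I.map (algebraMap A (Localization.AtPrime Q)))

/-- The multiplicity of `Q` in the closed subscheme `V(I)`. -/
def mult (I : Ideal A) (Q : ElemOf R A g) : ℤ :=
  haveI : Q.1.IsPrime := Q.2.1
  ((locLength A I Q.1).toNat : ℤ)

theorem le_of_mult_ne_zero {I : Ideal A} {Q : ElemOf R A g} (h : mult R A g I Q ≠ 0) :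
    I ≤ Q.1 := by
  by_contra hI
  apply h
  have : Q.1.IsPrime := Q.2.1
  obtain ⟨x, hxI, hxQ⟩ := SetLike.not_le_iff_exists.1 hI
  have htop : I.map (algebraMap A (Localization.AtPrime Q.1)) = ⊤ :=
    Ideal.eq_top_of_isUnit_mem _ (Ideal.mem_map_of_mem _ hxI)
      (IsLocalization.map_units (Localization.AtPrime Q.1) (⟨x, hxQ⟩ : Q.1.primeCompl))
  have : Subsingleton (Localization.AtPrime Q.1 ⧸
      I.map (algebraMap A (Localization.AtPrime Q.1))) :=
    Ideal.Quotient.subsingleton_iff.2 htop
  simp [mult, locLength, quotLength]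

theorem finite_support_mult (I : Ideal A) (h : FiniteOver R A g I) :
    (Function.support (mult R A g I)).Finite := by
  let : Algebra R (A ⧸ I) := ((Ideal.Quotient.mk I).comp g).toAlgebra
  have : Module.Finite R (A ⧸ I) := h
  have hfin := Algebra.QuasiFinite.finite_primesOver (R := R) (S := A ⧸ I) ⊥
  refine Set.Finite.of_finite_image (f := fun Q : ElemOf R A g => Q.1.map (Ideal.Quotient.mk I))
    (hfin.subset ?_) ?_
  · rintro _ ⟨Q, hQ, rfl⟩
    have hle := le_of_mult_ne_zero R A g hQ
    have : Q.1.IsPrime := Q.2.1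
    refine ⟨Ideal.map_isPrime_of_surjective Ideal.Quotient.mk_surjective (by simpa using hle),
      ⟨le_antisymm bot_le ?_⟩⟩
    intro r hr
    have hr' : Ideal.Quotient.mk I (g r) ∈ Q.1.map (Ideal.Quotient.mk I) := hr
    rw [Ideal.mem_quotient_iff_mem hle] at hr'
    rw [← Q.2.2.2]
    exact hr'
  · intro Q hQ Q' hQ' hh
    have h1 := le_of_mult_ne_zero R A g hQ
    have h2 := le_of_mult_ne_zero R A g hQ'
    have := congrArg (Ideal.comap (Ideal.Quotient.mk I)) hh
    simp only [Ideal.comap_map_quotientMk] at this
    rw [sup_eq_right.2 h1, sup_eq_right.2 h2] at this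
    exact Subtype.ext this

/-- The lengths entering `mult` are finite when `V(I)` is finite over the base. -/
theorem locLength_ne_top (I : Ideal A) (h : FiniteOver R A g I) (Q : ElemOf R A g) :
    (haveI : Q.1.IsPrime := Q.2.1; locLength A I Q.1) ≠ ⊤ := by
  have : Q.1.IsPrime := Q.2.1
  let : Algebra R A := g.toAlgebra
  have : Module.Finite R (A ⧸ I) := RingHom.finite_algebraMap.1 h
  have : (⊥ : Ideal R).IsPrime := Q.2.2.2 ▸ Ideal.comap_isPrime g Q.1
  have : IsDomain R := IsDomain.of_bot_isPrime R
  let L := Localization.AtPrime Q.1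
  let S := L ⧸ I.map (algebraMap A L)
  have : IsScalarTower R (A ⧸ I) S := .of_algebraMap_eq fun _ => rfl
  have : Algebra.QuasiFinite R S :=
    .of_isLocalization (Algebra.algebraMapSubmonoid (A ⧸ I) Q.1.primeCompl)
  have hu : ∀ y : nonZeroDivisors R, IsUnit (algebraMap R S y) := fun y => by
    have hy : g y ∈ Q.1.primeCompl := fun hy =>
      nonZeroDivisors.coe_ne_zero y (Q.2.2.2.le (show (y : R) ∈ Q.1.comap g from hy))
    exact (IsLocalization.map_units L ⟨_, hy⟩).map (Ideal.Quotient.mk _)
  let : Algebra (FractionRing R) S := (IsLocalization.lift hu).toAlgebra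
  have : IsScalarTower R (FractionRing R) S :=
    .of_algebraMap_eq fun x => (IsLocalization.lift_eq hu x).symm
  have : Algebra.QuasiFinite (FractionRing R) S := .of_restrictScalars R _ _
  have : Module.Finite (FractionRing R) S := .of_quasiFinite
  have : IsArtinianRing S := .of_finite (FractionRing R) S
  change Module.length L S ≠ ⊤
  rw [Module.length_eq_of_surjective (R := S) (S := L) Ideal.Quotient.mk_surjective]
  exact Module.length_ne_top

/-- The cycle `∑_Q length(O_{V(I), Q}) [Q]` of a closed subscheme `V(I)` of `Spec A` that is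
finite over `Spec R`. -/
def cyc (I : Ideal A) (h : FiniteOver R A g I) : ElemOf R A g →₀ ℤ :=
  Finsupp.ofSupportFinite (mult R A g I) (finite_support_mult R A g I h)

/-- The rank of `A` as an `R`-module through `g`. -/
def rankVia : ℕ :=
  letI : Algebra R A := g.toAlgebra
  Module.finrank R A

/-- The degree of `V(P)` over `Spec R`: the rank of `A / P` as an `R`-module. -/
def degree (P : ElemOf R A g) : ℕ := rankVia R (A ⧸ P.1) ((Ideal.Quotient.mk P.1).comp g)

/-- The function `x` vanishes on `V(P)`. -/
def Vanishes (P : ElemOf R A g) (x : A) : Prop := x ∈ P.1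

/-- Pull-back of cycles along `Spec A' → Spec A`: `V(P)` is sent to the cycle of its
scheme-theoretic preimage. -/
def pullOf (R' A' : Type u) [CommRing R'] [CommRing A'] (g' : R' →+* A') (b : A →+* A')
    (h : ∀ I : Ideal A, FiniteOver R A g I → FiniteOver R' A' g' (I.map b)) :
    (ElemOf R A g →₀ ℤ) →ₗ[ℤ] (ElemOf R' A' g' →₀ ℤ) :=
  Finsupp.linearCombination ℤ fun P : ElemOf R A g => cyc R' A' g' (P.1.map b) (h P.1 P.2.2.1)

end General

/-- The barycentric coordinates `t_0 = 1 - (t_1 + ⋯ + t_j), t_1, …, t_j` on
`Δ^j_S = Spec S[t_1, …, t_j]`. -/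
def bary (S : Type u) [CommRing S] (j : ℕ) : Fin (j + 1) → MvPolynomial (Fin j) S :=
  Fin.cons (1 - ∑ k, X k) X

/-- The `i`-th face map `Δ^j_S → Δ^{j+1}_S` on coordinate rings: the barycentric coordinates of
`Δ^{j+1}` are sent to `(t_0, …, t_{i-1}, 0, t_i, …, t_j)`. -/
def face (S : Type u) [CommRing S] (j : ℕ) (i : Fin (j + 2)) :
    MvPolynomial (Fin (j + 1)) S →ₐ[S] MvPolynomial (Fin j) S :=
  aeval fun k => (Fin.insertNth i 0 (bary S j) : Fin (j + 2) → MvPolynomial (Fin j) S) k.succ

variable (O : Type u) [CommRing O] (n j : ℕ)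

/-- The coordinate ring `O[x_1^{±1}, …, x_n^{±1}]` of `U × G_m^n`. -/
abbrev Torus : Type u := AddMonoidAlgebra O (Fin n → ℤ)

/-- The coordinate ring of `Δ^j × U`. -/
abbrev Base : Type u := MvPolynomial (Fin j) O

/-- The coordinate ring of `Δ^j × U × G_m^n`. -/
abbrev Amb : Type u := MvPolynomial (Fin j) (Torus O n)

/-- The projection `Δ^j × U × G_m^n → Δ^j × U` on coordinate rings. -/
def proj : Base O j →+* Amb O n j := MvPolynomial.map (algebraMap O (Torus O n))

/-- Elementary correspondences from `Δ^j × U` to `G_m^n`. -/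
abbrev Elem : Type u := ElemOf (Base O j) (Amb O n j) (proj O n j)

/-- `Cor (Δ^j × U, G_m^n)`: the free abelian group on the elementary correspondences. -/
abbrev Cor : Type u := Elem O n j →₀ ℤ

theorem map_bary {S S' : Type u} [CommRing S] [CommRing S'] (f : S →+* S') (j : ℕ)
    (k : Fin (j + 1)) : MvPolynomial.map f (bary S j k) = bary S' j k := by
  refine Fin.cases ?_ (fun k => ?_) k <;> simp [bary]

theorem face_map {S S' : Type u} [CommRing S] [CommRing S'] (f : S →+* S') (j : ℕ)
    (i : Fin (j + 2)) (p : MvPolynomial (Fin (j + 1)) S) :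
    face S' j i (MvPolynomial.map f p) = MvPolynomial.map f (face S j i p) := by
  induction p using MvPolynomial.induction_on with
  | C a => simp [face]
  | add p q hp hq => simp [hp, hq]
  | mul_X p k hp =>
    simp only [map_mul, hp, map_X]
    congr 1
    simp only [face, aeval_X]
    rcases eq_or_ne k.succ i with h | h
    · rw [h]; simp
    · obtain ⟨m, hm⟩ := Fin.exists_succAbove_eq h
      rw [← hm]; simp [map_bary]

theorem face_surjective (S : Type u) [CommRing S] (j : ℕ) (i : Fin (j + 2)) :
    Function.Surjective (face S j i) := by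
  have hX : ∀ k : Fin j, ∃ p, face S j i p = X k := by
    intro k
    have hne : i.succAbove k.succ ≠ 0 := by
      rcases eq_or_ne i 0 with rfl | hi
      · simp
      · exact Fin.succAbove_ne_zero hi (Fin.succ_ne_zero k)
    obtain ⟨m, hm⟩ := Fin.exists_succ_eq.2 hne
    exact ⟨X m, by simp [face, hm, bary]⟩
  intro p
  induction p using MvPolynomial.induction_on with
  | C a => exact ⟨C a, by simp [face]⟩
  | add p q hp hq =>
    obtain ⟨p, rfl⟩ := hp; obtain ⟨q, rfl⟩ := hq; exact ⟨p + q, map_add _ _ _⟩
  | mul_X p k hp =>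
    obtain ⟨p, rfl⟩ := hp; obtain ⟨q, hq⟩ := hX k; exact ⟨p * q, by rw [map_mul, hq]⟩

theorem finiteOver_map {R A R' A' : Type u} [CommRing R] [CommRing A] [CommRing R'] [CommRing A']
    (g : R →+* A) (g' : R' →+* A') (a : R →+* R') (b : A →+* A') (hb : Function.Surjective b)
    (hc : ∀ r, b (g r) = g' (a r)) (I : Ideal A) (h : FiniteOver R A g I) :
    FiniteOver R' A' g' (I.map b) := by
  have h1 : ((Ideal.quotientMap (I.map b) b Ideal.le_comap_map).comp
      ((Ideal.Quotient.mk I).comp g)).Finite :=
    RingHom.Finite.comp (RingHom.Finite.of_surjective _ (Ideal.quotientMap_surjective hb)) h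
  have h2 : (Ideal.quotientMap (I.map b) b Ideal.le_comap_map).comp
      ((Ideal.Quotient.mk I).comp g) = ((Ideal.Quotient.mk (I.map b)).comp g').comp a := by
    refine RingHom.ext fun p => ?_
    simp [hc]
  rw [h2] at h1
  exact RingHom.Finite.of_comp_finite h1

theorem finite_face (i : Fin (j + 2)) (I : Ideal (Amb O n (j + 1)))
    (h : FiniteOver (Base O (j + 1)) (Amb O n (j + 1)) (proj O n (j + 1)) I) :
    FiniteOver (Base O j) (Amb O n j) (proj O n j) (I.map (face (Torus O n) j i).toRingHom) :=
  finiteOver_map _ _ (face O j i).toRingHom _ (face_surjective _ j i)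
    (fun r => face_map _ j i r) I h

/-- Pull-back of correspondences along the `i`-th face: an elementary correspondence is sent to
the cycle of its scheme-theoretic intersection with the face. -/
def pull (i : Fin (j + 2)) : Cor O n (j + 1) →ₗ[ℤ] Cor O n j :=
  pullOf (Base O (j + 1)) (Amb O n (j + 1)) (proj O n (j + 1)) (Base O j) (Amb O n j) (proj O n j)
    (face (Torus O n) j i).toRingHom (finite_face O n j i)

/-- The differential: the alternating sum of the pull-backs along the faces. -/
def bd : Cor O n (j + 1) →ₗ[ℤ] Cor O n j :=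
  ∑ i : Fin (j + 2), ((-1 : ℤ) ^ (i : ℕ)) • pull O n j i

/-- The function `x_i - 1` on `U × G_m^n`. -/
def coordSubOne (i : Fin n) : Torus O n := AddMonoidAlgebra.single (Pi.single i 1) 1 - 1

/-- An elementary correspondence is degenerate if some coordinate `x_i` equals `1` on it. -/
def Degenerate (P : Elem O n j) : Prop :=
  ∃ i : Fin n, Vanishes (Base O j) (Amb O n j) (proj O n j) P (C (coordSubOne O n i))

/-- The subgroup generated by the degenerate elementary correspondences; the quotient of
`Cor O n j` by it is `Cor (Δ^j × U, G_m^{∧ n})`. -/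
def degen : Submodule ℤ (Cor O n j) :=
  Finsupp.supported ℤ ℤ {P : Elem O n j | Degenerate O n j P}

/-- The degree of an elementary correspondence over `Δ^j × U`. -/
def deg (P : Elem O n j) : ℕ := degree (Base O j) (Amb O n j) (proj O n j) P

/-- Two correspondences have the same class in `Cor (Δ^j × U, G_m^{∧ n})`. -/
def SameClass (c c' : Cor O n j) : Prop := c - c' ∈ degen O n j

end

end Pool.Agent.MP_e2821c_ag
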