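import Pool.Agent.Lib.MP_e2821c_ag.Defs

/-!
# The variation of a finite correspondence into the split torus
-/

namespace Pool.Agent.MP_e2821c_ag

open MvPolynomial TensorProduct

universe u

noncomputable section

/-- The trace over the fraction field `K` of `R` of multiplication by `y` on `K ⊗_R A`, where `A`
is an `R`-algebra through `g`. -/
def traceVia (R A : Type u) [CommRing R] [CommRing A] (g : R →+* A) (y : A) : FractionRing R :=
  letI : Algebra R A := g.toAlgebra
  Algebra.trace (FractionRing R) (FractionRing R ⊗[R] A) ((1 : FractionRing R) ⊗ₜ[R] y)

/-- The trace of the function `y` on the generic fibre of `V(P)` over `Spec R`: the sum of the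
values of `y` at the points of the generic fibre. -/
def traceOf (R A : Type u) [CommRing R] [CommRing A] (g : R →+* A) (P : ElemOf R A g) (y : A) :
    FractionRing R :=
  traceVia R (A ⧸ P.1) ((Ideal.Quotient.mk P.1).comp g) (Ideal.Quotient.mk P.1 y)

/-- The family `x` in the fraction field of the `O`-algebra `R` is algebraically independent
over `O`. -/
def Indep (O R : Type u) [CommRing O] [CommRing R] [Algebra O R] {j : ℕ}
    (x : Fin j → FractionRing R) : Prop := AlgebraicIndependent O x

variable (O : Type u) [CommRing O] (n j : ℕ)

/-- The function field `K` of `Δ^j × U`. -/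
abbrev FracBase : Type u := FractionRing (Base O j)

/-- The trace over `K` of the function `y` on the generic fibre of the elementary
correspondence `P`. -/
def traceOn (P : Elem O n j) (y : Amb O n j) : FracBase O j :=
  traceOf (Base O j) (Amb O n j) (proj O n j) P y

/-- The power sum `Tr_c (x^v)` of a correspondence at the monomial `x^v = x_1^{v_1} ⋯ x_n^{v_n}`.
For an effective `c` of degree `e` these are the coordinates of the map
`Δ^j × U → Sym^e (G_m^n)` given by `c`. -/
def powerSum (c : Cor O n j) (v : Fin n → ℤ) : FracBase O j :=
  c.sum fun P z => z • traceOn O n j P (C (AddMonoidAlgebra.single v 1))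

/-- The variation of `c` is not maximal: no `j` power sums of `c` are algebraically independent
over `O`. -/
def LowVariation (c : Cor O n j) : Prop :=
  ∀ v : Fin j → Fin n → ℤ, ¬ Indep O (Base O j) fun l => powerSum O n j c (v l)

/-- The formal boundary `∑ (-1)^i [d_i c]` on the free abelian group on the set of all
correspondences. -/
def formalBd (z : Cor O n (j + 1) →₀ ℤ) : Cor O n j →₀ ℤ :=
  ∑ i : Fin (j + 2), ((-1 : ℤ) ^ (i : ℕ)) • z.mapDomain (pull O n j i)

end

end Pool.Agent.MP_e2821c_ag
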