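import Pool.Agent.Lib.MP_e2821c_ag.Structure

/-!
# Cycles of degree at most two are boundaries
-/

namespace Pool.Agent.MP_e2821c_ag

open MvPolynomial

universe u

noncomputable section

variable (O : Type u) [CommRing O] [IsDomain O] [IsIntegrallyClosed O] (n j : ℕ)

/-- Non-degenerate lines together with a norm. -/
def Idx : Type u :=
  {J : Ideal (Torus O n) // IsLine J ∧
    ∀ i : Fin n, coordSubOne O n i ∉ J} × Oˣ

variable {O n}

/-- The chosen parametrisation of a line. -/
def psi (q : Idx O n) : Torus O n →ₐ[O] LaurentPolynomial O := q.1.2.1.choose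

omit [IsDomain O] [IsIntegrallyClosed O] in
theorem psi_surj (q : Idx O n) : Function.Surjective (psi q) := q.1.2.1.choose_spec.1

omit [IsDomain O] [IsIntegrallyClosed O] in
theorem ker_psi (q : Idx O n) : RingHom.ker (psi q) = q.1.1 := q.1.2.1.choose_spec.2

variable (O n)

/-- The chain map from simplices of the affine line to correspondences. -/
def sigL : (Idx O n × Base O j →₀ ℤ) →ₗ[ℤ] Cor O n j :=
  Finsupp.linearCombination ℤ fun p => sig j (psi p.1) p.1.2 (psi_surj p.1) p.2

theorem bd_sigL (z : Idx O n × Base O (j + 1) →₀ ℤ) :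
    bd O n j (sigL O n (j + 1) z) = sigL O n j (bdR O (Idx O n) j z) := by
  induction z using Finsupp.induction_linear with
  | zero => simp
  | add a b ha hb => simp only [map_add, ha, hb]
  | single p m =>
    simp only [bd_apply, bdR, altSum_single, map_sum, map_smul, sigL,
      Finsupp.linearCombination_single, pull_sig, Finset.smul_sum]
    exact Finset.sum_congr rfl fun i _ => smul_comm _ _ _

theorem sigL_constR (y : Idx O n × O →₀ ℤ) :
    ∃ s : Pt O n →₀ ℤ, ∀ j, sigL O n j (constR O (Idx O n) j y) = extL O n j s := by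
  induction y using Finsupp.induction_linear with
  | zero => exact ⟨0, fun j => by simp⟩
  | add a b ha hb =>
    obtain ⟨s, hs⟩ := ha
    obtain ⟨t, ht⟩ := hb
    exact ⟨s + t, fun j => by simp only [map_add, hs, ht]⟩
  | single p m =>
    obtain ⟨s, hs⟩ := sig_const (psi p.1) p.1.2 (psi_surj p.1) p.2
    refine ⟨m • s, fun j => ?_⟩
    simp only [constR, sigL, Finsupp.lmapDomain_apply, Finsupp.mapDomain_single,
      Finsupp.linearCombination_single, hs, map_smul]

/-- Pairs with nonconstant trace. -/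
abbrev NC : Type u := {p : Idx O n × Base O j // ¬ ∃ τ, p.2 = C τ}

/-- The elementary correspondence of a pair with nonconstant trace. -/
def kap (p : NC O n j) : Elem O n j := elemOf j (psi p.1.1) p.1.1.2 (psi_surj p.1.1) p.1.2 p.2

theorem C_mem_kap (p : NC O n j) (a : Torus O n) :
    (C a : Amb O n j) ∈ (kap O n j p).1 ↔ a ∈ p.1.1.1.1 := by
  rw [← ker_psi]
  exact C_mem_ker_phi j _ _ p.2 a

theorem kap_injective : Function.Injective (kap O n j) := by
  rintro ⟨⟨⟨J, c⟩, T⟩, hT⟩ ⟨⟨⟨J', c'⟩, T'⟩, hT'⟩ h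
  obtain rfl : J = J' := Subtype.ext (Ideal.ext fun a => by
    have h1 := C_mem_kap O n j ⟨⟨⟨J, c⟩, T⟩, hT⟩ a
    rw [h, C_mem_kap] at h1
    exact h1.symm)
  obtain ⟨rfl, rfl⟩ := ker_phi_inj j (psi (J, c)) (psi_surj _) (c := c) (c' := c') (T := T)
    (T' := T') (congrArg Subtype.val h)
  rfl

theorem kap_not_degenerate (p : NC O n j) : ¬ Degenerate O n j (kap O n j p) := by
  rintro ⟨i, hi⟩
  refine p.1.1.1.2.2 i ?_
  rw [← C_mem_kap]
  exact hi

theorem kap_ne_ext (p : NC O n j) (P : Pt O n) : kap O n j p ≠ ext O n j P := by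
  intro h
  refine ker_ne_pt (psi p.1.1) (psi_surj _) P (Ideal.ext fun a => ?_)
  rw [ker_psi, ← C_mem_kap, h, C_mem_ext]

theorem sigL_val (u : NC O n j →₀ ℤ) :
    sigL O n j (Finsupp.mapDomain Subtype.val u) = Finsupp.mapDomain (kap O n j) u := by
  induction u using Finsupp.induction_linear with
  | zero => simp
  | add a b ha hb => simp only [Finsupp.mapDomain_add, map_add, ha, hb]
  | single p m =>
    rw [Finsupp.mapDomain_single, Finsupp.mapDomain_single, sigL, Finsupp.linearCombination_single,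
      sig_eq_single _ _ _ _ _ p.2, Finsupp.smul_single_one]
    rfl

omit [IsDomain O] [IsIntegrallyClosed O] in
theorem split_const (z : Idx O n × Base O j →₀ ℤ) : ∃ (u : NC O n j →₀ ℤ) (y : Idx O n × O →₀ ℤ),
    z = Finsupp.mapDomain Subtype.val u + constR O (Idx O n) j y := by
  induction z using Finsupp.induction_linear with
  | zero => exact ⟨0, 0, by simp⟩
  | add a b ha hb =>
    obtain ⟨u, y, rfl⟩ := ha
    obtain ⟨u', y', rfl⟩ := hb
    exact ⟨u + u', y + y', by rw [Finsupp.mapDomain_add, map_add]; abel⟩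
  | single p m =>
    by_cases h : ∃ τ, p.2 = C τ
    · obtain ⟨τ, hτ⟩ := h
      refine ⟨0, Finsupp.single (p.1, τ) m, ?_⟩
      simp [constR, ← hτ]
    · exact ⟨Finsupp.single ⟨p, h⟩ m, 0, by simp⟩

theorem const_of_sigL (z : Idx O n × Base O j →₀ ℤ) (s : Pt O n →₀ ℤ)
    (h : sigL O n j z + extL O n j s ∈ degen O n j) : ∃ y, z = constR O (Idx O n) j y := by
  obtain ⟨u, y, rfl⟩ := split_const O n j z
  obtain ⟨t, ht⟩ := sigL_constR O n y
  rw [map_add, sigL_val, ht, add_assoc, ← map_add] at h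
  have hu : u = 0 := by
    ext p
    have h1 := (Finsupp.mem_supported' ℤ _).1 h (kap O n j p) (kap_not_degenerate O n j p)
    rw [Finsupp.add_apply, Finsupp.mapDomain_apply (kap_injective O n j)] at h1
    have h2 : extL O n j (t + s) (kap O n j p) = 0 :=
      Finsupp.mapDomain_of_notMem_range _ _ fun ⟨P, hP⟩ => kap_ne_ext O n j p P hP.symm
    rw [h2, add_zero] at h1
    exact h1
  exact ⟨y, by simp [hu]⟩

theorem decompose (c : Cor O n j) (hc : ∀ P ∈ c.support,
    Degenerate O n j P ∨ degree (Base O j) (Amb O n j) (proj O n j) P ≤ 2) :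
    ∃ d ∈ degen O n j, ∃ s z, c = d + extL O n j s + sigL O n j z := by
  let M : Submodule ℤ (Cor O n j) :=
    degen O n j ⊔ LinearMap.range (extL O n j) ⊔ LinearMap.range (sigL O n j)
  have hM : c ∈ M := by
    rw [← c.sum_single]
    refine Submodule.sum_mem _ fun P hP => ?_
    rw [← Finsupp.smul_single_one]
    refine Submodule.smul_mem _ _ ?_
    by_cases hd : Degenerate O n j P
    · exact Submodule.mem_sup_left (Submodule.mem_sup_left
        (Finsupp.single_mem_supported ℤ _ hd))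
    rcases structure_thm P ((hc P hP).resolve_left hd) with ⟨P₀, rfl⟩ | ⟨J, hJ, h⟩
    · exact Submodule.mem_sup_left (Submodule.mem_sup_right ⟨_, extL_single O n j P₀ 1⟩)
    · obtain ⟨c, T, hT, rfl⟩ := h _ hJ.choose_spec.1 hJ.choose_spec.2
      have hnd : ∀ i : Fin n, coordSubOne O n i ∉ J := by
        intro i hi
        refine hd ⟨i, ?_⟩
        rw [← hJ.choose_spec.2, ← C_mem_ker_phi j _ c hT] at hi
        exact hi
      refine Submodule.mem_sup_right ⟨Finsupp.single ((⟨J, hJ, hnd⟩, c), T) 1, ?_⟩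
      rw [sigL, Finsupp.linearCombination_single, one_smul, sig_eq_single _ _ _ _ _ hT]
      rfl
  obtain ⟨a, ha, _, ⟨z, rfl⟩, rfl⟩ := Submodule.mem_sup.1 hM
  obtain ⟨d, hd, _, ⟨s, rfl⟩, rfl⟩ := Submodule.mem_sup.1 ha
  exact ⟨d, hd, s, z, rfl⟩

theorem main (c : Cor O n (j + 2)) (hc : ∀ P ∈ c.support, Degenerate O n (j + 2) P ∨
      degree (Base O (j + 2)) (Amb O n (j + 2)) (proj O n (j + 2)) P ≤ 2)
    (hb : bd O n (j + 1) c ∈ degen O n (j + 1)) :
    ∃ b : Cor O n (j + 3), bd O n (j + 2) b - c ∈ degen O n (j + 2) := by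
  obtain ⟨d, hd, s, z, rfl⟩ := decompose O n (j + 2) c hc
  rw [map_add, map_add, add_assoc, add_mem_cancel_left (bd_degen O n (j + 1) hd)] at hb
  have hb' := hb
  rw [bd_extL, bd_sigL, add_comm (_ • _), ← map_smul] at hb'
  obtain ⟨y, hy⟩ := const_of_sigL O n (j + 1) _ _ hb'
  obtain ⟨w, y', rfl⟩ := bdR_rel O (Idx O n) j z y hy
  obtain ⟨t, ht⟩ := sigL_constR O n y'
  rw [map_add, map_add, bd_sigL, bdR_bdR, map_zero, zero_add, ht, ← map_add, ← map_add,
    bd_extL] at hb
  rw [map_add, ht, ← bd_sigL]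
  rcases eps_cases (j + 1) with h0 | h0
  · refine ⟨sigL O n (j + 3) w + extL O n (j + 3) (s + t), ?_⟩
    rw [map_add, bd_extL, eps_succ, h0, sub_zero, one_smul, map_add]
    convert neg_mem hd using 1
    abel
  · rw [h0, one_smul] at hb
    have h1 := extL_mem_degen O n (j' := j + 2) hb
    refine ⟨sigL O n (j + 3) w, ?_⟩
    convert neg_mem (add_mem hd h1) using 1
    rw [map_add]
    abel

end

end Pool.Agent.MP_e2821c_ag
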