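import Pool.Agent.Lib.MP_e2821c_ag.Units

/-!
# Correspondences of degree two supported on a one-dimensional coset
-/

namespace Pool.Agent.MP_e2821c_ag

open MvPolynomial QuadraticAlgebra

universe u

noncomputable section

variable {O : Type u} [CommRing O] {n : ℕ} (j : ℕ) (ψ : Torus O n →ₐ[O] LaurentPolynomial O)
  (c : Oˣ)

/-- The map to the quadratic algebra cutting out `E² - T E + c = 0` on the line `ψ`. -/
def phi (T : Base O j) : Amb O n j →+* QuadraticAlgebra (Base O j) (-C (c : O)) T :=
  eval₂Hom ((chi (C : O →+* Base O j) c T).comp ψ) fun k => algebraMap (Base O j) _ (X k)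

theorem phi_C (T : Base O j) (a : Torus O n) :
    phi j ψ c T (C a) = chi (C : O →+* Base O j) c T (ψ a) := by
  simp [phi]

theorem phi_X (T : Base O j) (k : Fin j) :
    phi j ψ c T (X k) = algebraMap (Base O j) _ (X k) := by
  simp [phi]

theorem phi_proj (T r : Base O j) : phi j ψ c T (proj O n j r) = algebraMap (Base O j) _ r := by
  have : (phi j ψ c T).comp (proj O n j) = algebraMap (Base O j) _ := by
    refine MvPolynomial.ringHom_ext (fun a => ?_) (fun k => ?_)
    · rw [RingHom.comp_apply, proj, map_C, phi_C, AlgHom.commutes,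
        ← LaurentPolynomial.C_eq_algebraMap, chi_C]
    · rw [RingHom.comp_apply, proj, map_X, phi_X]
  exact DFunLike.congr_fun this r

theorem phi_gen {w : Torus O n} (hw : ψ w = LaurentPolynomial.T 1) (T α β : Base O j) :
    phi j ψ c T (proj O n j α + proj O n j β * C w) = ⟨α, β⟩ := by
  rw [map_add, map_mul, phi_proj, phi_proj, phi_C, hw, chi_T]
  refine QuadraticAlgebra.ext ?_ ?_ <;> simp

variable (hψ : Function.Surjective ψ)

include hψ in
theorem phi_surjective (T : Base O j) : Function.Surjective (phi j ψ c T) := by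
  obtain ⟨w, hw⟩ := hψ (LaurentPolynomial.T 1)
  exact fun z => ⟨_, phi_gen j ψ c hw T z.re z.im⟩

include hψ in
theorem finiteOver_phi (T : Base O j) :
    FiniteOver (Base O j) (Amb O n j) (proj O n j) (RingHom.ker (phi j ψ c T)) := by
  refine finiteOver_ker _ (phi_surjective j ψ c hψ T) ?_
  have : (phi j ψ c T).comp (proj O n j) = algebraMap (Base O j) _ :=
    RingHom.ext (phi_proj j ψ c T)
  rw [this]
  exact RingHom.finite_algebraMap.2 inferInstance

theorem comap_phi (T : Base O j) : (RingHom.ker (phi j ψ c T)).comap (proj O n j) = ⊥ := by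
  rw [eq_bot_iff]
  intro r hr
  rw [Ideal.mem_comap, RingHom.mem_ker, phi_proj] at hr
  exact QuadraticAlgebra.algebraMap_injective (hr.trans (map_zero _).symm)

/-- Base change of the quadratic algebra along a face. -/
def qface (i : Fin (j + 2)) (T : Base O (j + 1)) :
    QuadraticAlgebra (Base O (j + 1)) (-C (c : O)) T →+*
      QuadraticAlgebra (Base O j) (-C (c : O)) (face O j i T) :=
  qmap (R := Base O (j + 1)) (R' := Base O j) (face O j i).toRingHom (by simp [face]) (by rfl)

theorem face_phi (i : Fin (j + 2)) (T : Base O (j + 1)) (x : Amb O n (j + 1)) :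
    qface j c i T (phi (j + 1) ψ c T x) =
      phi j ψ c (face O j i T) (face (Torus O n) j i x) := by
  have : (qface j c i T).comp (phi (j + 1) ψ c T) =
      (phi j ψ c (face O j i T)).comp (face (Torus O n) j i).toRingHom := by
    refine MvPolynomial.ringHom_ext (fun a => ?_) (fun k => ?_)
    · have h1 : (face (Torus O n) j i).toRingHom (C a) = C a := by simp [face]
      rw [RingHom.comp_apply, RingHom.comp_apply, h1, phi_C, phi_C]
      exact qmap_chi (R := Base O (j + 1)) (R' := Base O j) (face O j i).toRingHom C C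
        (fun x => by simp [face]) c _ _ _
    · have h1 : (face (Torus O n) j i).toRingHom (X k) = proj O n j (face O j i (X k)) := by
        rw [proj, ← face_map, map_X]; rfl
      rw [RingHom.comp_apply, RingHom.comp_apply, h1, phi_proj, phi_X]
      refine QuadraticAlgebra.ext ?_ ?_ <;> simp [qface, qmap]
  exact DFunLike.congr_fun this x

include hψ in
theorem map_ker_phi (i : Fin (j + 2)) (T : Base O (j + 1)) :
    (RingHom.ker (phi (j + 1) ψ c T)).map (face (Torus O n) j i).toRingHom =
      RingHom.ker (phi j ψ c (face O j i T)) := by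
  obtain ⟨w, hw⟩ := hψ (LaurentPolynomial.T 1)
  apply le_antisymm
  · rw [Ideal.map_le_iff_le_comap]
    intro x hx
    rw [RingHom.mem_ker] at hx
    change phi j ψ c (face O j i T) (face (Torus O n) j i x) = 0
    rw [← face_phi, hx, map_zero]
  · intro y hy
    obtain ⟨x, rfl⟩ := face_surjective (Torus O n) j i y
    rw [RingHom.mem_ker, ← face_phi] at hy
    set z := phi (j + 1) ψ c T x with hz
    have h1 : face O j i z.re = 0 := congrArg QuadraticAlgebra.re hy
    have h2 : face O j i z.im = 0 := congrArg QuadraticAlgebra.im hy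
    have h3 : x - (proj O n (j + 1) z.re + proj O n (j + 1) z.im * C w) ∈
        RingHom.ker (phi (j + 1) ψ c T) := by
      rw [RingHom.mem_ker, map_sub, phi_gen (j + 1) ψ c hw, sub_eq_zero]
    have h4 := Ideal.mem_map_of_mem (face (Torus O n) j i).toRingHom h3
    simpa [proj, face_map, h1, h2] using h4

/-- The cycle of `E² - T E + c = 0` on the line `ψ`. -/
def sig (T : Base O j) : Cor O n j :=
  cyc (Base O j) (Amb O n j) (proj O n j) (RingHom.ker (phi j ψ c T)) (finiteOver_phi j ψ c hψ T)

/-- The point `E = r` of the line `ψ`. -/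
def ptOf [IsDomain O] (r : Oˣ) : Pt O n :=
  ⟨RingHom.ker ((LaurentPolynomial.eval₂ (RingHom.id O) r).comp ψ), RingHom.ker_isPrime _, by
    have h : ((LaurentPolynomial.eval₂ (RingHom.id O) r).comp
        (ψ : Torus O n →+* LaurentPolynomial O)).comp (algebraMap O (Torus O n)) =
        RingHom.id O := by
      refine RingHom.ext fun a => ?_
      rw [RingHom.comp_apply, RingHom.comp_apply, RingHom.coe_coe, AlgHom.commutes,
        ← LaurentPolynomial.C_eq_algebraMap, LaurentPolynomial.eval₂_C]
    refine ⟨finiteOver_ker _ (fun a => ⟨algebraMap _ _ a, DFunLike.congr_fun h a⟩) ?_, ?_⟩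
    · rw [h]; exact RingHom.Finite.id O
    · rw [RingHom.comap_ker, h]; exact RingHom.ker_coe_equiv (RingEquiv.refl O)⟩

theorem mem_ext_ptOf [IsDomain O] {r r' : Oˣ} (h : r * r' = c) (y : Amb O n j) :
    y ∈ (ext O n j (ptOf ψ r)).1 ↔
      (phi j ψ c (C ((r : O) + r')) y).re + (phi j ψ c (C ((r : O) + r')) y).im * C (r : O) = 0 := by
  let e : QuadraticAlgebra (Base O j) (-C (c : O)) (C ((r : O) + r')) →ₐ[Base O j] Base O j :=
    QuadraticAlgebra.lift ⟨C (r : O), by
      rw [← h]; simp only [Units.val_mul, map_mul, map_add, smul_eq_mul]; ring⟩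
  have he : ∀ z, e z = z.re + z.im * C (r : O) := fun z => by simp [e]
  have h1 : e.toRingHom.comp (phi j ψ c (C ((r : O) + r'))) =
      MvPolynomial.map ((LaurentPolynomial.eval₂ (RingHom.id O) r).comp ψ) := by
    refine MvPolynomial.ringHom_ext (fun a => ?_) (fun k => ?_)
    · rw [RingHom.comp_apply, phi_C, map_C]
      have : e.toRingHom.comp (chi (C : O →+* Base O j) c (C ((r : O) + r'))) =
          (C : O →+* Base O j).comp (LaurentPolynomial.eval₂ (RingHom.id O) r) := by
        refine laurent_ext (fun a => ?_) ?_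
        · rw [RingHom.comp_apply, chi_C]; simp
        · rw [RingHom.comp_apply, chi_T]; simp [he]
      exact DFunLike.congr_fun this (ψ a)
    · rw [RingHom.comp_apply, phi_X]; simp
  rw [← he]
  change y ∈ Ideal.map C (RingHom.ker _) ↔ _
  rw [← MvPolynomial.ker_map, ← h1]
  rfl

theorem sig_split [IsDomain O] {r r' : Oˣ} (h : r * r' = c) :
    sig j ψ c hψ (C ((r : O) + r')) =
      Finsupp.single (ext O n j (ptOf ψ r')) 1 + Finsupp.single (ext O n j (ptOf ψ r)) 1 := by
  obtain ⟨w, hw⟩ := hψ (LaurentPolynomial.T 1)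
  have hc : (C (c : O) : Base O j) = C (r : O) * C (r' : O) := by
    rw [← h, Units.val_mul, map_mul]
  have hx := phi_gen j ψ c hw (C ((r : O) + r')) (-C (r : O)) 1
  refine cyc_two _ _ _ _ (proj O n j (-C (r : O)) + proj O n j 1 * C w) (fun y => ?_) ?_
  · have h' := mem_ext_ptOf j ψ c ((mul_comm _ _).trans h) y
    rw [add_comm (r' : O)] at h'
    rw [h', RingHom.mem_ker, map_mul, hx]
    generalize phi j ψ c (C ((r : O) + r')) y = z
    constructor
    · intro hz
      have := congrArg QuadraticAlgebra.im hz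
      simp only [im_mul, map_add, im_zero] at this
      linear_combination this
    · intro hz
      refine QuadraticAlgebra.ext ?_ ?_
      · simp only [re_mul, re_zero]
        linear_combination (-C (r : O)) * hz - z.im * hc
      · simp only [im_mul, map_add, im_zero]
        linear_combination hz
  · apply le_antisymm
    · refine sup_le (fun y hy => ?_) ?_
      · rw [mem_ext_ptOf j ψ c h, RingHom.mem_ker.1 hy]; simp
      · rw [Ideal.span_singleton_le_iff_mem, mem_ext_ptOf j ψ c h, hx]; simp
    · intro y hy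
      rw [mem_ext_ptOf j ψ c h] at hy
      set z := phi j ψ c (C ((r : O) + r')) y with hz
      refine Submodule.mem_sup.2 ⟨y - proj O n j z.im * _, ?_, _,
        Ideal.mem_span_singleton'.2 ⟨proj O n j z.im, rfl⟩, sub_add_cancel _ _⟩
      rw [RingHom.mem_ker, map_sub, map_mul, hx, phi_proj, ← hz]
      refine QuadraticAlgebra.ext ?_ ?_
      · simp only [re_sub, re_mul, algebraMap_re, algebraMap_im, re_zero]
        linear_combination hy
      · simp

variable [IsDomain O] [IsIntegrallyClosed O]

theorem sig_const (τ : O) : ∃ s : Pt O n →₀ ℤ, ∀ j, sig j ψ c hψ (C τ) = extL O n j s := by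
  by_cases h : ∃ r : O, r ^ 2 - τ * r + c = 0
  · obtain ⟨r, hr⟩ := h
    obtain ⟨r₀, r₁, -, hs, hp⟩ := root_const O 0 (T := C τ) (r := C r) (c := c) (by
      rw [← map_pow, ← map_mul, ← map_sub, ← map_add, hr, map_zero])
    obtain rfl := C_injective _ _ hs
    refine ⟨Finsupp.single (ptOf ψ r₁) 1 + Finsupp.single (ptOf ψ r₀) 1, fun j => ?_⟩
    rw [sig_split j ψ c hψ hp, map_add, extL_single, extL_single]
  · push Not at h
    have := quad_isDomain (R := O) (c := RingHom.id O c) h
    obtain ⟨w, hw⟩ := hψ (LaurentPolynomial.T 1)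
    have h1 : ((chi (RingHom.id O) c τ).comp (ψ : Torus O n →+* LaurentPolynomial O)).comp
        (algebraMap O (Torus O n)) = algebraMap O _ := by
      refine RingHom.ext fun a => ?_
      rw [RingHom.comp_apply, RingHom.comp_apply, RingHom.coe_coe, AlgHom.commutes,
        ← LaurentPolynomial.C_eq_algebraMap, chi_C]
      rfl
    let P : Pt O n := ⟨RingHom.ker ((chi (RingHom.id O) c τ).comp ψ), RingHom.ker_isPrime _, by
      refine finiteOver_ker _ (fun z => ⟨algebraMap _ _ z.re + algebraMap _ _ z.im * w, ?_⟩) ?_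
      · have e1 := DFunLike.congr_fun h1 z.re
        have e2 := DFunLike.congr_fun h1 z.im
        rw [RingHom.comp_apply] at e1 e2
        rw [map_add, map_mul, e1, e2, RingHom.comp_apply, RingHom.coe_coe, hw, chi_T]
        refine QuadraticAlgebra.ext ?_ ?_ <;> simp
      · rw [h1]; exact RingHom.finite_algebraMap.2 inferInstance, by
      rw [RingHom.comap_ker, h1, ← RingHom.injective_iff_ker_eq_bot]
      exact QuadraticAlgebra.algebraMap_injective⟩
    refine ⟨Finsupp.single P 1, fun j => ?_⟩
    rw [extL_single]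
    refine cyc_elem _ (eq_of_le _ ?_ (comap_phi j ψ c _)) _
    refine Ideal.map_le_iff_le_comap.2 fun a ha => ?_
    rw [Ideal.mem_comap, RingHom.mem_ker, phi_C, ← qmap_chi (C : O →+* Base O j) (RingHom.id O) C
      (fun _ => rfl) c (T := τ) (by simp) rfl]
    have : chi (RingHom.id O) c τ (ψ a) = 0 := ha
    rw [this, map_zero]

/-- The elementary correspondence given by a nonconstant trace. -/
def elemOf (T : Base O j) (hT : ¬ ∃ τ, T = C τ) : Elem O n j :=
  ⟨RingHom.ker (phi j ψ c T), by
    have := base_isIntegrallyClosed O j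
    have := quad_isDomain (R := Base O j) (c := C (c : O)) (T := T) fun r hr => by
      obtain ⟨r₀, r₁, -, hs, -⟩ := root_const O j hr
      exact hT ⟨_, hs⟩
    exact RingHom.ker_isPrime _, finiteOver_phi j ψ c hψ T, comap_phi j ψ c T⟩

theorem sig_eq_single (T : Base O j) (hT : ¬ ∃ τ, T = C τ) :
    sig j ψ c hψ T = Finsupp.single (elemOf j ψ c hψ T hT) 1 :=
  cyc_elem (elemOf j ψ c hψ T hT) (I := RingHom.ker (phi j ψ c T)) rfl _

theorem pull_sig (i : Fin (j + 2)) (T : Base O (j + 1)) :
    pull O n j i (sig (j + 1) ψ c hψ T) = sig j ψ c hψ (face O j i T) := by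
  by_cases hT : ∃ τ, T = C τ
  · obtain ⟨τ, rfl⟩ := hT
    obtain ⟨s, hs⟩ := sig_const ψ c hψ τ
    have : face O j i (C τ) = C τ := by simp [face]
    rw [this, hs, hs, pull_extL]
  · rw [sig_eq_single _ _ _ _ _ hT, pull_single]
    exact cyc_congr (map_ker_phi j ψ c hψ i T) _ _

omit [IsIntegrallyClosed O] in
theorem C_mem_ker_phi {T : Base O j} (hT : ¬ ∃ τ, T = C τ) (a : Torus O n) :
    (C a : Amb O n j) ∈ RingHom.ker (phi j ψ c T) ↔ a ∈ RingHom.ker ψ := by
  rw [RingHom.mem_ker, RingHom.mem_ker, phi_C, map_eq_zero_iff _ (chi_injective c hT)]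

omit [IsDomain O] [IsIntegrallyClosed O] in
include hψ in
theorem ker_phi_inj [Nontrivial O] {c c' : Oˣ} {T T' : Base O j}
    (h : RingHom.ker (phi j ψ c T) = RingHom.ker (phi j ψ c' T')) : c = c' ∧ T = T' := by
  obtain ⟨w, hw⟩ := hψ (LaurentPolynomial.T 1)
  have h1 : ∀ (c₁ c₂ : Oˣ) (T₁ T₂ : Base O j), phi j ψ c₁ T₁
      (C w * C w - proj O n j T₂ * C w + proj O n j (C (c₂ : O))) = ⟨C (c₂ : O) - C (c₁ : O), T₁ - T₂⟩ := by
    intro c₁ c₂ T₁ T₂
    simp only [map_add, map_sub, map_mul, phi_proj, phi_C, hw, chi_T]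
    refine QuadraticAlgebra.ext ?_ ?_
    · simp; ring
    · simp
  have h2 : C w * C w - proj O n j T' * C w + proj O n j (C (c' : O)) ∈
      RingHom.ker (phi j ψ c' T') := by
    rw [RingHom.mem_ker, h1, sub_self, sub_self]; rfl
  rw [← h, RingHom.mem_ker, h1] at h2
  have e1 : (C (c' : O) - C (c : O) : Base O j) = 0 := congrArg QuadraticAlgebra.re h2
  have e2 : T - T' = 0 := congrArg QuadraticAlgebra.im h2
  exact ⟨Units.ext (C_injective _ _ (sub_eq_zero.1 e1)).symm, sub_eq_zero.1 e2⟩

omit [IsIntegrallyClosed O] in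
include hψ in
theorem ker_ne_pt (P : Pt O n) : RingHom.ker ψ ≠ P.1 := by
  intro h
  obtain ⟨w, hw⟩ := hψ (LaurentPolynomial.T 1)
  obtain ⟨p, hp, h0⟩ := RingHom.Finite.to_isIntegral P.2.2.1 (Ideal.Quotient.mk P.1 w)
  rw [← Polynomial.hom_eval₂, Ideal.Quotient.eq_zero_iff_mem, ← h, RingHom.mem_ker,
    ← Polynomial.aeval_def, ← Polynomial.aeval_algHom_apply, hw] at h0
  have h1 : Polynomial.aeval (LaurentPolynomial.T 1 : LaurentPolynomial O) p =
      Polynomial.toLaurent p := by
    rw [← Polynomial.toLaurent_X, ← Polynomial.toLaurentAlg_apply, Polynomial.aeval_algHom_apply,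
      Polynomial.aeval_X_left_apply, Polynomial.toLaurentAlg_apply]
  rw [h1, Polynomial.toLaurent_eq_zero] at h0
  exact hp.ne_zero h0

end

end Pool.Agent.MP_e2821c_ag
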