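import Pool.Agent.Lib.MP_e2821c_ag.Defs

/-!
# The free abelian group on the simplices of the affine line is acyclic
-/

namespace Pool.Agent.MP_e2821c_ag

open MvPolynomial

universe u

noncomputable section

variable (O : Type u) [CommRing O]

/-- Homogeneous face maps. -/
def hface (j : ℕ) (i : Fin (j + 1)) : MvPolynomial (Fin (j + 1)) O →ₐ[O] MvPolynomial (Fin j) O :=
  aeval (Fin.insertNth i 0 X : Fin (j + 1) → MvPolynomial (Fin j) O)

/-- Dehomogenisation. -/
def dehom (j : ℕ) : MvPolynomial (Fin (j + 1)) O →ₐ[O] MvPolynomial (Fin j) O := aeval (bary O j)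

theorem sum_bary (j : ℕ) : ∑ k, bary O j k = 1 := by
  rw [Fin.sum_univ_succ]; simp [bary]

theorem face_bary (j : ℕ) (i k : Fin (j + 2)) :
    face O j i (bary O (j + 1) k) =
      (Fin.insertNth i 0 (bary O j) : Fin (j + 2) → MvPolynomial (Fin j) O) k := by
  refine Fin.cases ?_ (fun k => ?_) k
  · have h : ∑ k, (Fin.insertNth i 0 (bary O j) : Fin (j + 2) → MvPolynomial (Fin j) O) k = 1 := by
      rw [Fin.sum_univ_succAbove _ i]; simp [sum_bary]
    rw [Fin.sum_univ_succ] at h
    simp only [bary, Fin.cons_zero, map_sub, map_one, map_sum, face, aeval_X]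
    simp only [bary] at h
    linear_combination -h
  · simp [bary, face]

theorem face_dehom (j : ℕ) (i : Fin (j + 2)) (F : MvPolynomial (Fin (j + 2)) O) :
    face O j i (dehom O (j + 1) F) = dehom O j (hface O (j + 1) i F) := by
  have : (face O j i).comp (dehom O (j + 1)) = (dehom O j).comp (hface O (j + 1) i) := by
    refine MvPolynomial.algHom_ext fun k => ?_
    simp only [AlgHom.comp_apply, dehom, aeval_X, face_bary, hface]
    rcases eq_or_ne k i with h | h
    · rw [h]; simp
    · obtain ⟨m, rfl⟩ := Fin.exists_succAbove_eq h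
      simp
  exact DFunLike.congr_fun this F

theorem hface_hface (j : ℕ) (i : Fin (j + 2)) (k : Fin (j + 1)) (F : MvPolynomial (Fin (j + 2)) O) :
    hface O j (k.predAbove i) (hface O (j + 1) (i.succAbove k) F) =
      hface O j k (hface O (j + 1) i F) := by
  have : (hface O j (k.predAbove i)).comp (hface O (j + 1) (i.succAbove k)) =
      (hface O j k).comp (hface O (j + 1) i) := by
    refine MvPolynomial.algHom_ext fun m => ?_
    simp only [AlgHom.comp_apply, hface, aeval_X]
    rcases eq_or_ne m i with h | h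
    · have h1 : (Fin.insertNth (i.succAbove k) 0 X :
          Fin (j + 2) → MvPolynomial (Fin (j + 1)) O) i = X (k.predAbove i) := by
        conv_lhs => arg 4; rw [← Fin.succAbove_succAbove_predAbove i k]
        rw [Fin.insertNth_apply_succAbove]
      rw [h, h1]
      simp
    · obtain ⟨m, rfl⟩ := Fin.exists_succAbove_eq h
      rcases eq_or_ne m k with h | h
      · rw [h]; simp
      · obtain ⟨m, rfl⟩ := Fin.exists_succAbove_eq h
        conv_lhs => rw [← Fin.succAbove_succAbove_succAbove_predAbove i k m]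
        simp
  exact DFunLike.congr_fun this F

theorem hface_zero_rename (j : ℕ) (F : MvPolynomial (Fin j) O) :
    hface O j 0 (rename Fin.succ F) = F := by
  have : (hface O j 0).comp (rename Fin.succ) = AlgHom.id O _ := by
    refine MvPolynomial.algHom_ext fun m => ?_
    simp [hface]
  exact DFunLike.congr_fun this F

theorem hface_succ_rename (j : ℕ) (i : Fin (j + 1)) (F : MvPolynomial (Fin (j + 1)) O) :
    hface O (j + 1) i.succ (rename Fin.succ F) = rename Fin.succ (hface O j i F) := by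
  have : (hface O (j + 1) i.succ).comp (rename Fin.succ) =
      (rename Fin.succ).comp (hface O j i) := by
    refine MvPolynomial.algHom_ext fun m => ?_
    simp only [AlgHom.comp_apply, hface, rename_X, aeval_X]
    rcases eq_or_ne m i with h | h
    · rw [h]; simp
    · obtain ⟨m, rfl⟩ := Fin.exists_succAbove_eq h
      rw [← Fin.succ_succAbove_succ, Fin.insertNth_apply_succAbove, Fin.insertNth_apply_succAbove,
        rename_X]
  exact DFunLike.congr_fun this F

theorem hface_isHomogeneous {j D : ℕ} (i : Fin (j + 1)) {F : MvPolynomial (Fin (j + 1)) O}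
    (hF : F.IsHomogeneous D) : (hface O j i F).IsHomogeneous D := by
  have := hF.aeval (Fin.insertNth i 0 X : Fin (j + 1) → MvPolynomial (Fin j) O) (n := 1) (by
    intro m
    rcases eq_or_ne m i with h | h
    · rw [h]; simpa using isHomogeneous_zero _ _ _
    · obtain ⟨m, rfl⟩ := Fin.exists_succAbove_eq h
      simpa using isHomogeneous_X _ _)
  simpa [hface] using this

theorem dehom_surj (j : ℕ) (f : MvPolynomial (Fin j) O) :
    ∃ D₀ : ℕ, ∀ D, D₀ ≤ D → ∃ F : MvPolynomial (Fin (j + 1)) O,
      F.IsHomogeneous D ∧ dehom O j F = f := by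
  have hσ : (∑ k, X k : MvPolynomial (Fin (j + 1)) O).IsHomogeneous 1 :=
    IsHomogeneous.sum _ _ _ fun k _ => isHomogeneous_X _ _
  have hσ1 : dehom O j (∑ k, X k) = 1 := by simp [dehom, sum_bary]
  induction f using MvPolynomial.induction_on with
  | C a =>
    refine ⟨0, fun D _ => ⟨C a * (∑ k, X k) ^ D, ?_, ?_⟩⟩
    · simpa using (hσ.pow D).C_mul a
    · rw [map_mul, map_pow, hσ1]; simp [dehom]
  | add p q hp hq =>
    obtain ⟨a, ha⟩ := hp
    obtain ⟨b, hb⟩ := hq
    refine ⟨a + b, fun D hD => ?_⟩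
    obtain ⟨F, hF, rfl⟩ := ha D (by omega)
    obtain ⟨G, hG, rfl⟩ := hb D (by omega)
    exact ⟨F + G, hF.add hG, map_add _ _ _⟩
  | mul_X p k hp =>
    obtain ⟨a, ha⟩ := hp
    refine ⟨a + 1, fun D hD => ?_⟩
    obtain ⟨D, rfl⟩ : ∃ D', D = D' + 1 := ⟨D - 1, by omega⟩
    obtain ⟨F, hF, rfl⟩ := ha D (by omega)
    exact ⟨F * X k.succ, hF.mul (isHomogeneous_X _ _), by simp [dehom, bary]⟩

theorem dehom_surjective (j : ℕ) : Function.Surjective (dehom O j) := fun f => by
  obtain ⟨D, hD⟩ := dehom_surj O j f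
  obtain ⟨F, -, hF⟩ := hD D le_rfl
  exact ⟨F, hF⟩

theorem aeval_mul_of_isHomogeneous {σ K : Type*} [CommRing K] [Algebra O K] {D : ℕ}
    {F : MvPolynomial σ O} (hF : F.IsHomogeneous D) (c : K) (x : σ → K) :
    aeval (fun k => c * x k) F = c ^ D * aeval x F := by
  conv_lhs => rw [F.as_sum]
  conv_rhs => rw [F.as_sum]
  rw [map_sum, map_sum, Finset.mul_sum]
  refine Finset.sum_congr rfl fun s hs => ?_
  rw [aeval_monomial, aeval_monomial, hF.degree_eq_sum_deg_support hs]
  simp only [Finsupp.prod, mul_pow, Finset.prod_mul_distrib, Finset.prod_pow_eq_pow_sum]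
  ring

theorem dehom_eq_zero [IsDomain O] {j D : ℕ} {F : MvPolynomial (Fin (j + 1)) O}
    (hF : F.IsHomogeneous D) (h : dehom O j F = 0) : F = 0 := by
  let H := MvPolynomial (Fin (j + 1)) O
  let K := FractionRing H
  have hσ : (∑ k, X k : H) ≠ 0 := by
    intro h0
    have := congrArg (dehom O j) h0
    simp [dehom, sum_bary, H] at this
  set s : K := algebraMap H K (∑ k, X k) with hs
  have hs0 : s ≠ 0 := fun h0 => hσ (IsFractionRing.injective H K (by rw [← hs, h0, map_zero]))
  let ψ : MvPolynomial (Fin j) O →ₐ[O] K := aeval fun k => s⁻¹ * algebraMap H K (X k.succ)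
  have h1 : ψ.comp (dehom O j) = aeval fun k => s⁻¹ * algebraMap H K (X k) := by
    refine MvPolynomial.algHom_ext fun m => ?_
    refine Fin.cases ?_ (fun m => ?_) m
    · simp only [AlgHom.comp_apply, dehom, aeval_X, bary, Fin.cons_zero, map_sub, map_one,
        map_sum, ψ]
      rw [← Finset.mul_sum]
      have : s = algebraMap H K (X 0) + ∑ k : Fin j, algebraMap H K (X k.succ) := by
        rw [hs, Fin.sum_univ_succ, map_add, map_sum]
      rw [sub_eq_iff_eq_add, ← mul_add, ← this, inv_mul_cancel₀ hs0]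
    · simp [dehom, bary, ψ]
  have h2 := DFunLike.congr_fun h1 F
  rw [AlgHom.comp_apply, h, map_zero, aeval_mul_of_isHomogeneous O hF] at h2
  have h3 : aeval (fun k => algebraMap H K (X k)) F = algebraMap H K F := by
    have : (aeval (fun k => algebraMap H K (X k)) : H →ₐ[O] K) =
        IsScalarTower.toAlgHom O H K := MvPolynomial.algHom_ext fun m => by simp [H]
    exact DFunLike.congr_fun this F
  rw [h3] at h2
  have h4 : algebraMap H K F = 0 :=
    (mul_eq_zero.1 h2.symm).resolve_left (pow_ne_zero _ (inv_ne_zero hs0))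
  exact IsFractionRing.injective H K (by rw [h4, map_zero])

/-- Alternating sum of the maps induced on free abelian groups by a family of maps of sets. -/
def altSum {α β : Type u} {m : ℕ} (f : Fin m → α → β) : (α →₀ ℤ) →ₗ[ℤ] (β →₀ ℤ) :=
  ∑ i : Fin m, ((-1 : ℤ) ^ (i : ℕ)) • Finsupp.lmapDomain ℤ ℤ (f i)

theorem altSum_single {α β : Type u} {m : ℕ} (f : Fin m → α → β) (a : α) (z : ℤ) :
    altSum f (Finsupp.single a z) =
      ∑ i : Fin m, ((-1 : ℤ) ^ (i : ℕ)) • Finsupp.single (f i a) z := by
  simp only [altSum, LinearMap.sum_apply, LinearMap.smul_apply, Finsupp.lmapDomain_apply,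
    Finsupp.mapDomain_single]

theorem face_face (j : ℕ) (i : Fin (j + 3)) (k : Fin (j + 2)) (f : Base O (j + 2)) :
    face O j (k.predAbove i) (face O (j + 1) (i.succAbove k) f) =
      face O j k (face O (j + 1) i f) := by
  obtain ⟨F, rfl⟩ := dehom_surjective O (j + 2) f
  simp only [face_dehom, hface_hface]

variable (ι : Type u)

/-- The differential of `ℤ[ι × O[Δ^•]]`. -/
def bdR (j : ℕ) : (ι × Base O (j + 1) →₀ ℤ) →ₗ[ℤ] (ι × Base O j →₀ ℤ) :=
  altSum fun (i : Fin (j + 2)) p => (p.1, face O j i p.2)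

theorem bdR_bdR (j : ℕ) (z : ι × Base O (j + 2) →₀ ℤ) : bdR O ι j (bdR O ι (j + 1) z) = 0 := by
  induction z using Finsupp.induction_linear with
  | zero => simp
  | add a b ha hb => simp [ha, hb]
  | single f m =>
    simp only [bdR, altSum_single, map_sum, map_smul, Finset.smul_sum, smul_smul, ← pow_add]
    rw [← Finset.sum_product']
    refine Finset.sum_involution (fun p _ => (p.1.succAbove p.2, p.2.predAbove p.1)) ?_ ?_ ?_ ?_
    · rintro ⟨i, k⟩ _
      simp only [face_face, Fin.neg_one_pow_succAbove_add_predAbove]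
      simp
    · rintro ⟨i, k⟩ _ _ h
      exact Fin.succAbove_ne i k (congrArg Prod.fst h)
    · intro p _; simp
    · rintro ⟨i, k⟩ _
      simp [Fin.succAbove_succAbove_predAbove, Fin.predAbove_predAbove_succAbove]

/-- Homogeneous polynomials of degree `D`, with an index. -/
abbrev Hmg (j D : ℕ) : Type u := ι × {F : MvPolynomial (Fin j) O // F.IsHomogeneous D}

/-- The differential on homogeneous polynomials. -/
def bdH (j D : ℕ) : (Hmg O ι (j + 1) D →₀ ℤ) →ₗ[ℤ] (Hmg O ι j D →₀ ℤ) :=
  altSum fun (i : Fin (j + 1)) (F : Hmg O ι (j + 1) D) =>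
    ((F.1, ⟨hface O j i F.2.1, hface_isHomogeneous O i F.2.2⟩) : Hmg O ι j D)

/-- The extra degeneracy. -/
def cone (j D : ℕ) (F : Hmg O ι j D) : Hmg O ι (j + 1) D :=
  (F.1, ⟨rename Fin.succ F.2.1, F.2.2.rename_isHomogeneous⟩)

/-- Dehomogenisation with an index. -/
def dehomI (j D : ℕ) (F : Hmg O ι (j + 1) D) : ι × Base O j := (F.1, dehom O j F.2.1)

theorem bdH_cone (j D : ℕ) (Z : Hmg O ι (j + 1) D →₀ ℤ) :
    bdH O ι (j + 1) D (Finsupp.mapDomain (cone O ι (j + 1) D) Z) =
      Z - Finsupp.mapDomain (cone O ι j D) (bdH O ι j D Z) := by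
  induction Z using Finsupp.induction_linear with
  | zero => simp
  | add a b ha hb =>
    simp only [Finsupp.mapDomain_add, map_add, ha, hb]; abel
  | single F m =>
    rw [Finsupp.mapDomain_single]
    simp only [bdH, altSum_single]
    rw [Fin.sum_univ_succ, ← Finsupp.lmapDomain_apply ℤ ℤ, map_sum, sub_eq_add_neg,
      ← Finset.sum_neg_distrib]
    congr 1
    · simp [cone, hface_zero_rename]
    · refine Finset.sum_congr rfl fun i _ => ?_
      simp only [map_smul, Finsupp.lmapDomain_apply, Finsupp.mapDomain_single, Fin.val_succ,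
        pow_succ, mul_neg, mul_one, neg_smul, cone, hface_succ_rename]

theorem bdR_dehom (j D : ℕ) (Z : Hmg O ι (j + 2) D →₀ ℤ) :
    bdR O ι j (Finsupp.mapDomain (dehomI O ι (j + 1) D) Z) =
      Finsupp.mapDomain (dehomI O ι j D) (bdH O ι (j + 1) D Z) := by
  induction Z using Finsupp.induction_linear with
  | zero => simp
  | add a b ha hb =>
    simp only [Finsupp.mapDomain_add, map_add, ha, hb]
  | single F m =>
    rw [Finsupp.mapDomain_single]
    simp only [bdH, bdR, altSum_single]
    rw [← Finsupp.lmapDomain_apply ℤ ℤ, map_sum]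
    refine Finset.sum_congr rfl fun i _ => ?_
    simp only [map_smul, Finsupp.lmapDomain_apply, Finsupp.mapDomain_single, face_dehom, dehomI]

theorem bdR_exact [IsDomain O] (j : ℕ) (z : ι × Base O (j + 1) →₀ ℤ) (hz : bdR O ι j z = 0) :
    ∃ w, bdR O ι (j + 1) w = z := by
  classical
  choose D₀ hD₀ using dehom_surj O (j + 1)
  set D := z.support.sup fun f => D₀ f.2
  have hl : ∀ f : ι × Base O (j + 1), ∃ F : Hmg O ι (j + 2) D,
      f ∈ z.support → dehomI O ι (j + 1) D F = f := by
    intro f
    by_cases hf : f ∈ z.support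
    · obtain ⟨F, hF, h⟩ := hD₀ f.2 D (Finset.le_sup (f := fun f => D₀ f.2) hf)
      exact ⟨(f.1, ⟨F, hF⟩), fun _ => Prod.ext rfl h⟩
    · exact ⟨(f.1, ⟨0, isHomogeneous_zero _ _ _⟩), fun h => absurd h hf⟩
  choose l hl using hl
  set Z := Finsupp.mapDomain l z
  have hZ : Finsupp.mapDomain (dehomI O ι (j + 1) D) Z = z := by
    rw [← Finsupp.mapDomain_comp]
    conv_rhs => rw [← Finsupp.mapDomain_id (v := z)]
    exact Finsupp.mapDomain_congr fun f hf => hl f hf
  have hinj : Function.Injective (dehomI O ι j D) := by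
    intro F G h
    refine Prod.ext (congrArg Prod.fst h :)
      (Subtype.ext (sub_eq_zero.1 (dehom_eq_zero O (F.2.2.sub G.2.2) ?_)))
    rw [map_sub, sub_eq_zero]; exact congrArg Prod.snd h
  have h0 : bdH O ι (j + 1) D Z = 0 := by
    apply Finsupp.mapDomain_injective hinj
    rw [← bdR_dehom, hZ, hz, Finsupp.mapDomain_zero]
  refine ⟨Finsupp.mapDomain (dehomI O ι (j + 2) D)
    (Finsupp.mapDomain (cone O ι (j + 2) D) Z), ?_⟩
  rw [bdR_dehom, bdH_cone, h0, Finsupp.mapDomain_zero, sub_zero, hZ]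

/-- The alternating sum of `j + 2` signs. -/
def eps (j : ℕ) : ℤ := ∑ i : Fin (j + 2), (-1 : ℤ) ^ (i : ℕ)

theorem eps_succ (j : ℕ) : eps (j + 1) = 1 - eps j := by
  unfold eps
  rw [Fin.sum_univ_succ]
  simp [pow_succ, sub_eq_add_neg]

theorem eps_cases (j : ℕ) : eps j = 0 ∨ eps j = 1 := by
  induction j with
  | zero => left; simp [eps]
  | succ j ih => rw [eps_succ]; omega

/-- Constant simplices. -/
def constR (j : ℕ) : (ι × O →₀ ℤ) →ₗ[ℤ] (ι × Base O j →₀ ℤ) :=
  Finsupp.lmapDomain ℤ ℤ fun p => (p.1, C p.2)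

theorem bdR_constR (j : ℕ) (y : ι × O →₀ ℤ) :
    bdR O ι j (constR O ι (j + 1) y) = eps j • constR O ι j y := by
  induction y using Finsupp.induction_linear with
  | zero => simp
  | add a b ha hb => simp only [map_add, ha, hb, smul_add]
  | single p m =>
    have : ∀ i, face O j i (C p.2) = C p.2 := fun i => by simp [face]
    simp only [constR, Finsupp.lmapDomain_apply, Finsupp.mapDomain_single, bdR, altSum_single,
      eps, Finset.sum_smul, this]

theorem bdR_rel [IsDomain O] (j : ℕ) (z : ι × Base O (j + 2) →₀ ℤ) (y : ι × O →₀ ℤ)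
    (h : bdR O ι (j + 1) z = constR O ι (j + 1) y) :
    ∃ w y', z = bdR O ι (j + 2) w + constR O ι (j + 2) y' := by
  rcases eps_cases j with h0 | h0
  · have h1 : eps (j + 1) = 1 := by rw [eps_succ, h0]; rfl
    obtain ⟨w, hw⟩ := bdR_exact O ι (j + 1) (z - constR O ι (j + 2) y)
      (by rw [map_sub, bdR_constR, h1, one_smul, h, sub_self])
    exact ⟨w, y, by rw [hw, sub_add_cancel]⟩
  · have h1 := bdR_bdR O ι j z
    rw [h, bdR_constR, h0, one_smul] at h1
    have hy : y = 0 := by
      refine Finsupp.mapDomain_injective (f := fun p : ι × O => (p.1, (C p.2 : Base O j)))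
        (fun p q hpq => Prod.ext (congrArg Prod.fst hpq :)
          (C_injective _ _ (congrArg Prod.snd hpq))) ?_
      rw [Finsupp.mapDomain_zero]
      exact h1
    obtain ⟨w, hw⟩ := bdR_exact O ι (j + 1) z (by rw [h, hy, map_zero])
    exact ⟨w, 0, by rw [hw, map_zero, add_zero]⟩

end

end Pool.Agent.MP_e2821c_ag
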