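import Pool.Agent.Lib.MP_e2821c_ag.Alg

/-!
# Units of a quadratic extension of a polynomial ring
-/

namespace Pool.Agent.MP_e2821c_ag

open MvPolynomial

universe u

noncomputable section

variable {O : Type u} [CommRing O] [IsDomain O] {j : ℕ}

theorem laurent_injective {B : Type u} [CommRing B] (ρ : Base O j →+* B)
    (hρ : Function.Injective ρ) (σ : B →+* B) (hσ : ∀ r, σ (ρ r) = ρ r) (u : Bˣ) {T : Base O j}
    (hT : ρ T = u + σ u) (hnc : ¬ ∃ τ, T = C τ) :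
    Function.Injective (LaurentPolynomial.eval₂ (ρ.comp C) u) := by
  rw [injective_iff_map_eq_zero]
  intro f hf
  obtain ⟨m, p, hp⟩ := LaurentPolynomial.exists_T_pow f
  have h1 : Polynomial.eval₂ (ρ.comp C) (u : B) p = 0 := by
    rw [← LaurentPolynomial.eval₂_toLaurent, hp, map_mul, hf, zero_mul]
  have hp0 : p = 0 := by
    by_contra hp0
    let : Algebra O B := (ρ.comp C).toAlgebra
    have h2 : IsAlgebraic O (u : B) := ⟨p, hp0, h1⟩
    let σ' : B →ₐ[O] B := { σ with commutes' := fun a => hσ _ }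
    let ρ' : Base O j →ₐ[O] B := { ρ with commutes' := fun a => rfl }
    have h3 : IsAlgebraic O (ρ' T) := by
      change IsAlgebraic O (ρ T)
      rw [hT]
      exact h2.add (h2.algHom σ')
    exact hnc (const_of_isAlgebraic O j ((isAlgebraic_algHom_iff ρ' hρ).1 h3))
  rw [hp0, map_zero] at hp
  exact ((LaurentPolynomial.isUnit_T _).mul_left_eq_zero).1 hp.symm

theorem chi_injective (c : Oˣ) {T : Base O j} (hnc : ¬ ∃ τ, T = C τ) :
    Function.Injective (chi (C : O →+* Base O j) c T) := by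
  refine laurent_injective (algebraMap _ _) QuadraticAlgebra.algebraMap_injective
    (starRingEnd _) (fun r => ?_) _ (T := T) ?_ hnc
  · refine QuadraticAlgebra.ext ?_ ?_ <;> simp [starRingEnd_apply]
  · refine QuadraticAlgebra.ext ?_ ?_ <;> simp [om, starRingEnd_apply]

variable {L : Type u} [Field L] (ρ : Base O j →+* L) (hρ : Function.Injective ρ)
  (σ : L →+* L) (hσ : ∀ r, σ (ρ r) = ρ r)

include hρ in
theorem exists_norm_unit (u : Lˣ) (h1 : ∃ ν, ρ ν = u * σ u) (h2 : ∃ ν, ρ ν = ↑u⁻¹ * σ ↑u⁻¹) :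
    ∃ c : Oˣ, ρ (C (c : O)) = u * σ u := by
  obtain ⟨a, ha⟩ := h1
  obtain ⟨b, hb⟩ := h2
  have : a * b = 1 := by
    apply hρ
    rw [map_mul, ha, hb, mul_mul_mul_comm, ← map_mul, map_one]
    simp
  obtain ⟨c, hc, rfl⟩ := isUnit_iff_eq_C_of_isReduced.1 (IsUnit.of_mul_eq_one _ this)
  obtain ⟨c, rfl⟩ := hc
  exact ⟨c, ha⟩

include hρ hσ in
theorem unit_group [IsIntegrallyClosed O] (Γ : Subgroup Lˣ)
    (hT : ∀ u ∈ Γ, ∃ t, ρ t = (u : L) + σ u) (hN : ∀ u ∈ Γ, ∃ ν, ρ ν = (u : L) * σ u)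
    (hO : ∀ a : Oˣ, Units.map (ρ.comp C).toMonoidHom a ∈ Γ) :
    (∀ u ∈ Γ, ∃ τ ν : O, (u : L) ^ 2 - ρ (C τ) * u + ρ (C ν) = 0) ∨
      ∃ ε ∈ Γ, ∃ T : Base O j, (¬ ∃ τ, T = C τ) ∧ ρ T = (ε : L) + σ ε ∧
        ∀ u ∈ Γ, ∃ (a : Oˣ) (k : ℤ), u = Units.map (ρ.comp C).toMonoidHom a * ε ^ k := by
  classical
  have := base_isIntegrallyClosed O j
  have hN' : ∀ u ∈ Γ, ∃ c : Oˣ, ρ (C (c : O)) = (u : L) * σ u := fun u hu =>
    exists_norm_unit ρ hρ σ u (hN u hu) (hN _ (inv_mem hu))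
  choose! T hT using hT
  choose! N hN' using hN'
  set ι := Units.map (ρ.comp C).toMonoidHom with hι
  have hιv : ∀ a : Oˣ, ((ι a : Lˣ) : L) = ρ (C (a : O)) := fun a => rfl
  have hσσ : ∀ u ∈ Γ, σ (σ u) = u := by
    intro u hu
    have := hσ (T u)
    rw [hT u hu, map_add] at this
    linear_combination this
  have hbar : ∀ u ∈ Γ, ((ι (N u) * u⁻¹ : Lˣ) : L) = σ u := by
    intro u hu
    rw [Units.val_mul, hιv, hN' u hu, mul_right_comm]
    simp
  let d : Lˣ → ℕ := fun u => (gam O j (T u)).natDegree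
  have F1 : ∀ u ∈ Γ, ∀ w ∈ Γ, T (u * w) + T (u * (ι (N w) * w⁻¹)) = T u * T w := by
    intro u hu w hw
    apply hρ
    rw [map_add, map_mul, hT _ (mul_mem hu hw), hT _ (mul_mem hu (mul_mem (hO _) (inv_mem hw))),
      hT u hu, hT w hw, Units.val_mul u (_ * _), hbar w hw, Units.val_mul, map_mul, map_mul,
      hσσ w hw]
    ring
  have F2 : ∀ u ∈ Γ, ∀ w ∈ Γ, T (u * w) * T (u * (ι (N w) * w⁻¹)) =
      C (N w : O) * T u ^ 2 + C (N u : O) * T w ^ 2 + C (-4 * (N u : O) * N w) := by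
    intro u hu w hw
    apply hρ
    simp only [map_add, map_mul, map_pow, map_neg, map_ofNat]
    rw [hT _ (mul_mem hu hw), hT _ (mul_mem hu (mul_mem (hO _) (inv_mem hw))),
      hT u hu, hT w hw, hN' u hu, hN' w hw, Units.val_mul u (_ * _), hbar w hw, Units.val_mul,
      map_mul, map_mul, hσσ w hw]
    ring
  have hq : ∀ u ∈ Γ, (u : L) ^ 2 - ρ (T u) * u + ρ (C (N u : O)) = 0 := by
    intro u hu
    rw [hT u hu, hN' u hu]; ring
  by_cases hc : ∀ u ∈ Γ, d u = 0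
  · left
    intro u hu
    obtain ⟨τ, hτ⟩ := const_of_natDegree O j (hc u hu)
    exact ⟨τ, N u, hτ ▸ hq u hu⟩
  right
  have hex : ∃ m, ∃ u ∈ Γ, d u = m + 1 := by
    push Not at hc
    obtain ⟨u, hu, h⟩ := hc
    exact ⟨d u - 1, u, hu, by omega⟩
  obtain ⟨ε, hε, hdε⟩ := Nat.find_spec hex
  have hmin : ∀ u ∈ Γ, d u ≠ 0 → d ε ≤ d u := by
    intro u hu h
    have := Nat.find_min' hex (m := d u - 1) ⟨u, hu, by omega⟩
    omega
  refine ⟨ε, hε, T ε, ?_, hT ε hε, ?_⟩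
  · rintro ⟨τ, hτ⟩
    have : d ε = 0 := by simp only [d, hτ, gam_C, Polynomial.natDegree_C]
    omega
  have hzero : ∀ u ∈ Γ, d u = 0 → ∃ a : Oˣ, u = ι a := by
    intro u hu h
    obtain ⟨τ, hτ⟩ := const_of_natDegree O j h
    have e1 := congrArg (gam O j) (F1 u hu ε hε)
    have e2 := congrArg (gam O j) (F2 u hu ε hε)
    rw [map_add, map_mul, hτ, gam_C] at e1
    have e3 : C (N ε : O) * T u ^ 2 + C (N u : O) * T ε ^ 2 + C (-4 * (N u : O) * N ε) =
        C (N u : O) * T ε ^ 2 + C ((N ε : O) * τ ^ 2 + -4 * (N u : O) * N ε) := by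
      rw [hτ, map_add, map_mul C (N ε : O), map_pow]; ring
    rw [e3, map_mul, map_add, map_mul, gam_C, gam_C, map_pow] at e2
    obtain ⟨x, y, hy, hxy⟩ := leading_form e1 e2
      (by simp) (by change 1 ≤ d ε; omega)
    obtain ⟨r, hr⟩ := exists_root hy hxy
    obtain ⟨r₀, r₁, -, hs, hp⟩ := root_const O j hr
    have h0 := hq u hu
    rw [hτ, hs, ← hp] at h0
    simp only [map_add, Units.val_mul, map_mul] at h0
    have h1 : ((u : L) - ρ (C (r₀ : O))) * ((u : L) - ρ (C (r₁ : O))) = 0 := by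
      linear_combination h0
    rcases mul_eq_zero.1 h1 with h1 | h1
    · exact ⟨r₀, Units.ext (sub_eq_zero.1 h1)⟩
    · exact ⟨r₁, Units.ext (sub_eq_zero.1 h1)⟩
  intro u hu
  induction hm : d u using Nat.strong_induction_on generalizing u with
  | _ m ih =>
    by_cases h : d u = 0
    · obtain ⟨a, ha⟩ := hzero u hu h
      exact ⟨a, 0, by simpa using ha⟩
    have e1 := congrArg (gam O j) (F1 u hu ε hε)
    have e2 := congrArg (gam O j) (F2 u hu ε hε)
    rw [map_add, map_mul] at e1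
    rw [map_mul, map_add, map_add, map_mul, map_mul, gam_C, gam_C, gam_C, map_pow, map_pow] at e2
    rcases natDegree_descent e1 e2 (by change 1 ≤ d ε; omega) (hmin u hu h) with h1 | h1
    · obtain ⟨a, k, hk⟩ := ih _ (lt_of_lt_of_eq h1 hm) _ (mul_mem hu hε) rfl
      refine ⟨a, k - 1, ?_⟩
      rw [zpow_sub_one, ← mul_assoc, ← hk, mul_inv_cancel_right]
    · obtain ⟨a, k, hk⟩ := ih _ (lt_of_lt_of_eq h1 hm) _
        (mul_mem hu (mul_mem (hO (N ε)) (inv_mem hε))) rfl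
      refine ⟨a * (N ε)⁻¹, k + 1, ?_⟩
      rw [zpow_add_one, map_mul, map_inv, mul_right_comm, ← mul_assoc, ← hk]
      rw [mul_assoc u, mul_assoc (ι (N ε)), inv_mul_cancel, mul_one, mul_inv_cancel_right]

end

end Pool.Agent.MP_e2821c_ag
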